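import Pool.Agent.H33.JD.CurW

set_option autoImplicit false
set_option linter.unusedSectionVars false
set_option linter.unusedVariables false

/-!
# JD: class 7 or 8, three generators, curvilinear, case I: `M ∩ J³ = 0`

Products: `M M ⊂ C_(≥ c-2) + M₂`, `M M₂ ⊂ C_(≥ c-1)`, `M₂ M₂ ⊂ C_(≥ c)`, `x M ⊂ M₂`, `x² M ⊂ C_(≥ c-1)`, `x³ M ⊂ C_(≥ c)`, `x^k M = 0` (`k ≥ 4`),
`x M₂ = 0`, `x² M₂ ⊂ C_(≥ c)`, `x^k M₂ = 0` (`k ≥ 3`).
-/

namespace JD
namespace L2

universe u

open Module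

variable {F : Type u} [Field F] {J : Type u} [NonUnitalNonAssocCommRing J] [Module F J]
  [IsScalarTower F J J] [SMulCommClass F J J]

/-- case I -/
structure CvI (F : Type u) [Field F] {J : Type u} [NonUnitalNonAssocCommRing J] [Module F J]
    [IsScalarTower F J J] [SMulCommClass F J J] (x : J) (c : ℕ) (φ : J →ₗ[F] F)
    (M : Submodule F J) : Prop extends Cv F x c φ M where
  M3 : ∀ m ∈ M, m ∈ jpow F J 3 → m = 0

namespace Cv

variable {x : J} {c : ℕ} {φ : J →ₗ[F] F} {M : Submodule F J} (h : Cv F x c φ M)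
include h

/-- `x p = 0`, `p ∈ C` imply `p ∈ C_(≥ c)` -/
theorem Cg_of_x {p : J} (hp : p ∈ Cg F x 1) (h0 : x * p ∈ Cg F x (c + 1)) : p ∈ Cg F x c := by
  rw [h.Cg_top, Submodule.mem_bot] at h0
  refine h.Cg_of_kap (k := 1) hp (by omega) fun i hi => ?_
  obtain ⟨j, rfl⟩ : ∃ j, i = j + 1 := ⟨i - 1, by omega⟩
  rw [kap_succ, h0, map_zero]

/-- `x² p ∈ C_(≥ j + 2)`, `p ∈ C` imply `p ∈ C_(≥ j)` -/
theorem Cg_of_b {p : J} (hp : p ∈ Cg F x 1) {j : ℕ} (hj : j ≤ c - 1)
    (h0 : (x * x) * p ∈ Cg F x (j + 2)) : p ∈ Cg F x j := by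
  have hc := h.hc
  rcases Nat.eq_zero_or_pos j with rfl | hj0
  · exact Cg_anti x (by omega) hp
  refine h.Cg_of_kap (k := c + 1 - j) hp (by omega) fun i hi => ?_
  obtain ⟨l, rfl⟩ : ∃ l, i = l + 2 := ⟨i - 2, by omega⟩
  rw [← h.kap_b_Cg hp, h.kap_Cg (i := l) (j := j + 2) (by omega) (by omega) h0]

/-- products with `C_(≥ k)` -/
theorem Cg_mul {k : ℕ} {m : J} {T : Submodule F J} (hm : ∀ i, k ≤ i → xp x i * m ∈ T) {s : J}
    (hs : s ∈ Cg F x k) : s * m ∈ T := by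
  have hle : Cg F x k ≤ T.comap (LinearMap.mulRight F m) := by
    refine Cg_le x fun i hi => ?_
    rw [Submodule.mem_comap, LinearMap.mulRight_apply]
    exact hm i hi
  exact hle hs

end Cv

namespace CvI

variable {x : J} {c : ℕ} {φ : J →ₗ[F] F} {M : Submodule F J} (h : CvI F x c φ M)
include h

/-- `J^k ⊂ C_(≥ k)` for `k ≥ 3` -/
theorem JC {k : ℕ} (hk : 3 ≤ k) {p : J} (hp : p ∈ jpow F J k) : p ∈ Cg F x k := by
  obtain ⟨s, hs, m, hm, hmk, rfl⟩ := h.dec (by omega) hp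
  rw [h.M3 m hm (jpow_anti hk hmk), add_zero]
  exact hs

theorem xw {w : J} (hw : w ∈ M) (hw2 : w ∈ jpow F J 2) : x * w = 0 :=
  h.M3 _ (h.M_mul hw) (lmul_mem (by omega) x hw2)

theorem xv {v : J} (hv : v ∈ M) : x * v ∈ M ∧ x * v ∈ jpow F J 2 :=
  ⟨h.M_mul hv, mul_mem_two x v⟩

theorem xxv {v : J} (hv : v ∈ M) : x * (x * v) = 0 := h.xw (h.xv hv).1 (h.xv hv).2

theorem bw {w : J} (hw : w ∈ M) (hw2 : w ∈ jpow F J 2) : (x * x) * w ∈ Cg F x c := by
  have hc := h.hc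
  have m1 : (x * x) * w ∈ Cg F x 1 := Cg_anti x (by omega) (h.JC (k := 4) (by omega)
    (mul_mem_j (by omega) (mul_mem_two x x) hw2))
  refine h.Cg_of_kap (k := 1) m1 (by omega) fun i hi => ?_
  obtain ⟨j, rfl⟩ : ∃ j, i = j + 1 := ⟨i - 1, by omega⟩
  rw [h.kap_b, pow_succ, Module.End.mul_apply, LinearMap.mulLeft_apply, h.xw hw hw2, map_zero,
    mul_zero, map_zero]

theorem bv {v : J} (hv : v ∈ M) : (x * x) * v ∈ Cg F x (c - 1) := by
  have hc := h.hc
  have m1 : (x * x) * v ∈ Cg F x 1 := Cg_anti x (by omega) (h.JC (k := 3) (by omega)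
    (mul_mem_j (by omega) (mul_mem_two x x) (mem_one v)))
  refine h.Cg_of_kap (k := 2) m1 (by omega) fun i hi => ?_
  obtain ⟨j, rfl⟩ : ∃ j, i = j + 2 := ⟨i - 2, by omega⟩
  rw [h.kap_b, pow_succ, Module.End.mul_apply, LinearMap.mulLeft_apply, pow_succ,
    Module.End.mul_apply, LinearMap.mulLeft_apply, h.xxv hv, map_zero, mul_zero, map_zero]

theorem zero_Cg {p : J} (hp : p ∈ Cg F x (c + 1)) : p = 0 := by
  rwa [h.Cg_top, Submodule.mem_bot] at hp

theorem x3v {v : J} (hv : v ∈ M) : xp x 3 * v ∈ Cg F x c := by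
  rw [x3m F h.two h.jordan, h.xxv hv, mul_zero, smul_zero, sub_zero]
  exact Submodule.smul_mem _ _ (h.bw (h.xv hv).1 (h.xv hv).2)

theorem x3w {w : J} (hw : w ∈ M) (hw2 : w ∈ jpow F J 2) : xp x 3 * w = 0 := by
  rw [x3m F h.two h.jordan, h.xw hw hw2]
  simp

theorem x4v {v : J} (hv : v ∈ M) : xp x 4 * v = 0 := by
  rw [x4m F h.two h.jordan, h.xxv hv]
  have hc := h.hc
  have : (x * x) * ((x * x) * v) = 0 :=
    h.zero_Cg (h.b_Cg (i := c - 1) (by omega) (by omega) (h.bv hv))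
  rw [this]
  simp

theorem xkv {k : ℕ} (hk : 4 ≤ k) : ∀ v ∈ M, xp x k * v = 0 := by
  induction k using Nat.strong_induction_on with
  | _ k ih =>
    intro v hv
    rcases Nat.lt_or_ge k 5 with h4 | h5
    · obtain rfl : k = 4 := by omega
      exact h.x4v hv
    · obtain ⟨i, rfl⟩ : ∃ i, k = i + 2 := ⟨k - 2, by omega⟩
      have hc := h.hc
      rw [xp_rec F h.two h.jordan x (by omega) v, ih (i + 1) (by omega) (by omega) _ (h.xv hv).1,
        h.xxv hv]
      rcases Nat.lt_or_ge i 4 with h6 | h6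
      · obtain rfl : i = 3 := by omega
        have e1 : (x * x) * (xp x 3 * v) = 0 :=
          h.zero_Cg (h.b_Cg (i := c) (by omega) (by omega) (h.x3v hv))
        have e3 : x * (xp x 3 * v) = 0 :=
          h.zero_Cg (h.x_Cg (i := c) (by omega) (by omega) (h.x3v hv))
        rw [e1, e3]
        simp
      · rw [ih i (by omega) h6 v hv]
        simp

theorem xkw {k : ℕ} (hk : 3 ≤ k) {w : J} (hw : w ∈ M) (hw2 : w ∈ jpow F J 2) :
    xp x k * w = 0 := by
  rcases Nat.eq_or_lt_of_le hk with rfl | hlt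
  · exact h.x3w hw hw2
  · exact h.xkv hlt w hw

theorem Cv4 {v s : J} (hv : v ∈ M) {k : ℕ} (hk : 4 ≤ k) (hs : s ∈ Cg F x k) : s * v = 0 := by
  rw [← Submodule.mem_bot F]
  refine h.Cg_mul (k := k) (fun i hi => ?_) hs
  rw [h.xkv (by omega) v hv]
  exact zero_mem _

theorem Cw3 {w s : J} (hw : w ∈ M) (hw2 : w ∈ jpow F J 2) {k : ℕ} (hk : 3 ≤ k)
    (hs : s ∈ Cg F x k) : s * w = 0 := by
  rw [← Submodule.mem_bot F]
  refine h.Cg_mul (k := k) (fun i hi => ?_) hs
  rw [h.xkw (by omega) hw hw2]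
  exact zero_mem _

/-- `M M₂ ⊂ C_(≥ c-1)` -/
theorem wv {w v : J} (hw : w ∈ M) (hw2 : w ∈ jpow F J 2) (hv : v ∈ M) :
    (x * x) * (w * v) = 0 ∧ w * v ∈ Cg F x (c - 1) := by
  have hc := h.hc
  have m1 : w * v ∈ Cg F x 1 := Cg_anti x (by omega) (h.JC (k := 3) (by omega)
    (mul_mem_j (by omega) hw2 (mem_one v)))
  have e1 := comm2 F h.two h.jordan x w v
  rw [h.xw hw hw2, zero_mul, zero_mul, mul_zero, sub_zero, smul_zero, sub_eq_zero,
    mul_comm w ((x * x) * v), h.Cw3 hw hw2 (k := c - 1) (by omega) (h.bv hv)] at e1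
  refine ⟨e1, h.Cg_of_b m1 (by omega) ?_⟩
  rw [e1]
  exact zero_mem _

/-- `(x v) w ∈ C_(≥ c)` -/
theorem xvw {w v : J} (hw : w ∈ M) (hw2 : w ∈ jpow F J 2) (hv : v ∈ M) :
    (x * v) * w ∈ Cg F x c := by
  have hc := h.hc
  have e1 := comm2 F h.two h.jordan x v w
  rw [mul_comm v w, (h.wv hw hw2 hv).1, mul_comm v ((x * x) * w),
    h.Cv4 hv (k := c) (by omega) (h.bw hw hw2), h.xw hw hw2, mul_zero, sub_zero, sub_zero] at e1
  have e3 : x * ((x * v) * w) = 0 := two_ne h.two e1.symm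
  refine h.Cg_of_x ?_ ?_
  · exact Cg_anti x (by omega) (h.JC (k := 4) (by omega) (mul_mem_j (by omega) (h.xv hv).2 hw2))
  · rw [e3]; exact zero_mem _

theorem C2w {w s : J} (hw : w ∈ M) (hw2 : w ∈ jpow F J 2) (hs : s ∈ Cg F x 2) :
    s * w ∈ Cg F x c := by
  refine h.Cg_mul (k := 2) (fun i hi => ?_) hs
  rcases Nat.eq_or_lt_of_le hi with rfl | hlt
  · rw [xp_two]
    exact h.bw hw hw2
  · rw [h.xkw hlt hw hw2]
    exact zero_mem _

/-- `(v v') w ∈ C_(≥ c)` -/
theorem vvw {w v v' : J} (hw : w ∈ M) (hw2 : w ∈ jpow F J 2) (hv : v ∈ M) (hv' : v' ∈ M) :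
    (v * v') * w ∈ Cg F x c := by
  have hc := h.hc
  have e1 := gJ3 F h.two h.jordan v v' x w
  have z1 : (v' * x) * (v * w) = 0 := by
    rw [mul_comm v' x, mul_comm (x * v'), mul_comm v w]
    exact h.Cw3 (h.xv hv').1 (h.xv hv').2 (k := c - 1) (by omega) (h.wv hw hw2 hv).2
  have z3 : (x * v) * (v' * w) = 0 := by
    rw [mul_comm (x * v), mul_comm v' w]
    exact h.Cw3 (h.xv hv).1 (h.xv hv).2 (k := c - 1) (by omega) (h.wv hw hw2 hv').2
  have z4 : v * ((v' * x) * w) = 0 := by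
    rw [mul_comm v' x, mul_comm v]
    exact h.Cv4 hv (k := c) (by omega) (h.xvw hw hw2 hv')
  have z5 : v' * ((x * v) * w) = 0 := by
    rw [mul_comm v']
    exact h.Cv4 hv' (k := c) (by omega) (h.xvw hw hw2 hv)
  rw [h.xw hw hw2, mul_zero, z1, z3, z4, z5, add_zero, add_zero, add_zero, add_zero] at e1
  refine h.Cg_of_x ?_ ?_
  · exact Cg_anti x (by omega) (h.JC (k := 4) (by omega)
      (mul_mem_j (by omega) (mul_mem_two v v') hw2))
  · rw [← e1]; exact zero_mem _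

/-- `M₂ M₂ ⊂ C_(≥ c)` -/
theorem ww {w w' : J} (hw2 : w ∈ jpow F J 2) (hw' : w' ∈ M)
    (hw2' : w' ∈ jpow F J 2) : w * w' ∈ Cg F x c := by
  have hc := h.hc
  have hle : jpow F J 2 ≤ (Cg F x c).comap (LinearMap.mulRight F w') := by
    refine jpow_le_of le_rfl _ fun i j _ _ _ a _ b _ => ?_
    rw [Submodule.mem_comap, LinearMap.mulRight_apply]
    obtain ⟨m, hm, ha⟩ := h.exists_dec a
    obtain ⟨m', hm', hb⟩ := h.exists_dec b
    have hCM : ∀ s ∈ Cg F x 1, ∀ m ∈ M, (s * m) * w' ∈ Cg F x c := by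
      intro s hs m hm
      have hle : Cg F x 1 ≤ (Cg F x c).comap (LinearMap.mulRight F w' ∘ₗ
          LinearMap.mulRight F m) := by
        refine Cg_le x fun i hi => ?_
        rw [Submodule.mem_comap, LinearMap.comp_apply, LinearMap.mulRight_apply,
          LinearMap.mulRight_apply]
        rcases Nat.eq_or_lt_of_le hi with rfl | hlt
        · rw [xp_one]
          exact h.xvw hw' hw2' hm
        · have : xp x i * m ∈ Cg F x (c - 1) := by
            rcases Nat.lt_or_ge i 4 with h4 | h4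
            · obtain rfl | rfl : i = 2 ∨ i = 3 := by omega
              · rw [xp_two]; exact h.bv hm
              · exact Cg_anti x (by omega) (h.x3v hm)
            · rw [h.xkv h4 m hm]; exact zero_mem _
          rw [h.Cw3 hw' hw2' (k := c - 1) (by omega) this]
          exact zero_mem _
      exact hle hs
    have e : a * b * w' = (cp F x c φ a * cp F x c φ b) * w' + (cp F x c φ a * m') * w' +
        (cp F x c φ b * m) * w' + (m * m') * w' := by
      conv_lhs => rw [ha, hb]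
      rw [mul_add, add_mul, add_mul, add_mul, add_mul, add_mul, mul_comm m (cp F x c φ b)]
      abel
    rw [e]
    refine add_mem (add_mem (add_mem ?_ ?_) ?_) ?_
    · exact h.C2w hw' hw2' (h.Cg_mul_Cg (i := 1) (j := 1) (by omega) le_rfl le_rfl
        (cp_mem x c φ a) (cp_mem x c φ b))
    · exact hCM _ (cp_mem x c φ a) _ hm'
    · exact hCM _ (cp_mem x c φ b) _ hm
    · exact h.vvw hw' hw2' hm hm'
  exact hle hw2

/-- `M M ⊂ C_(≥ c-2) + M₂` -/
theorem vv {v v' : J} (hv : v ∈ M) (hv' : v' ∈ M) : ∃ s ∈ Cg F x (c - 2), ∃ m ∈ M,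
    m ∈ jpow F J 2 ∧ v * v' = s + m := by
  have hc := h.hc
  obtain ⟨s, hs, m, hm, hm2, e⟩ := h.dec (k := 2) (by omega) (mul_mem_two v v')
  refine ⟨s, ?_, m, hm, hm2, e⟩
  refine h.Cg_of_b (Cg_anti x (by omega) hs) (by omega) ?_
  rw [show c - 2 + 2 = c by omega]
  have e1 : (x * x) * s = (x * x) * (v * v') - (x * x) * m := by
    rw [e, mul_add]; abel
  rw [e1]
  refine sub_mem ?_ (h.bw hm hm2)
  have e3 := comm2 F h.two h.jordan x v v'
  rw [mul_comm v ((x * x) * v'), h.Cv4 hv (k := c - 1) (by omega) (h.bv hv'), sub_zero] at e3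
  rw [e3]
  refine Submodule.smul_mem _ _ (sub_mem ?_ ?_)
  · exact h.x_Cg (i := c - 1) (by omega) (by omega) (h.wv (h.xv hv).1 (h.xv hv).2 hv').2
  · exact h.ww (h.xv hv).2 (h.xv hv').1 (h.xv hv').2

end CvI

/-- the conditions of `fin_end` in case I -/
theorem CvI.end_I {x : J} {c : ℕ} {φ : J →ₗ[F] F} {M : Submodule F J} (h : CvI F x c φ M) {e : J}
    (hcr : Crit F J c e) (hn : ngen F J = 3) {p q r : ℕ} (hp : 1 ≤ p) (hpq : p < q)
    (hq : q ≤ p * c) (hr : r ≤ p * c) (hL : p * c < 4 * p + 2 * q) (hL2 : p * c < 2 * p + 3 * q)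
    (hL3 : p * c < 7 * p + q) (c1 : p + q ≤ r) (c2 : 2 * p + q ≤ p * (c - 1))
    (c3 : 3 * p + q ≤ p * c) (c4 : 2 * p + r ≤ p * c) (c5 : q + q ≤ p * (c - 2))
    (c6 : q + r ≤ p * (c - 1))
    (hMM : q + q ≤ r ∨ ∀ v ∈ M, ∀ v' ∈ M, v * v' ∈ Cg F x 1)
    (hWW : r + r ≤ p * c ∨ ∀ w ∈ M, w ∈ jpow F J 2 → ∀ w' ∈ M, w' ∈ jpow F J 2 → w * w' = 0) :
    False := by
  have hfin := hcr.fin
  have hc := h.hc
  obtain ⟨y, hy, z, hz, hyz, -, hspan⟩ := h.exists_yz hn
  refine h.fin_end hcr hy hz hyz hspan (p := p) (q := q) (r := r) (t := 0) hp hpq hq hr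
    (Nat.zero_le _) hL hL2 hL3 ?_ ?_ ?_ ?_ ?_ ?_ ?_ ?_ ?_
  · intro k hk m hm
    rcases Nat.lt_or_ge k 4 with h4 | h4
    · obtain rfl | rfl | rfl : k = 1 ∨ k = 2 ∨ k = 3 := by omega
      · rw [xp_one]
        exact Wf_M2 (by omega) (h.xv hm).1 (h.xv hm).2
      · rw [xp_two]
        exact Wf_C (c - 1) (by omega) (h.bv hm)
      · exact Wf_C c (by omega) (h.x3v hm)
    · rw [h.xkv h4 m hm]; exact zero_mem _
  · intro k hk m hm hm2
    rcases Nat.lt_or_ge k 3 with h3 | h3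
    · obtain rfl | rfl : k = 1 ∨ k = 2 := by omega
      · rw [xp_one, h.xw hm hm2]; exact zero_mem _
      · rw [xp_two]
        exact Wf_C c (by omega) (h.bw hm hm2)
    · rw [h.xkw h3 hm hm2]; exact zero_mem _
  · intro k hk m hm hm3
    rw [h.M3 m hm hm3, mul_zero]; exact zero_mem _
  · intro m hm n hn'
    obtain ⟨s, hs, m', hm', hm2', e'⟩ := h.vv hm hn'
    rcases hMM with hMM | hMM
    · rw [e']
      exact add_mem (Wf_C (c - 2) c5 hs) (Wf_M2 hMM hm' hm2')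
    · have h0 : m' = 0 := by
        refine h.inter ?_ hm'
        have : m' = m * n - s := by rw [e']; abel
        rw [this]
        exact sub_mem (hMM m hm n hn') (Cg_anti x (by omega) hs)
      rw [e', h0, add_zero]
      exact Wf_C (c - 2) c5 hs
  · intro m hm n hn' hn2
    rw [mul_comm]
    exact Wf_C (c - 1) c6 (h.wv hn' hn2 hm).2
  · intro m hm n hn' hn3
    rw [h.M3 n hn' hn3, mul_zero]; exact zero_mem _
  · intro m hm hm2 n hn' hn2
    rcases hWW with hWW | hWW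
    · exact Wf_C c hWW (h.ww hm2 hn' hn2)
    · rw [hWW m hm hm2 n hn' hn2]; exact zero_mem _
  · intro m hm hm2 n hn' hn3
    rw [h.M3 n hn' hn3, mul_zero]; exact zero_mem _
  · intro m hm hm3 n hn' hn3
    rw [h.M3 n hn' hn3, mul_zero]; exact zero_mem _

theorem caseI7 {e : J} (hcr : Crit F J 7 e) (hn : ngen F J = 3) {x : J} {φ : J →ₗ[F] F}
    {M : Submodule F J} (h : CvI F x 7 φ M) : False :=
  h.end_I hcr hn (p := 4) (q := 7) (r := 14) (by norm_num) (by norm_num) (by norm_num)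
    (by norm_num) (by norm_num) (by norm_num) (by norm_num) (by norm_num) (by norm_num)
    (by norm_num) (by norm_num) (by norm_num) (by norm_num) (Or.inl (by norm_num))
    (Or.inl (by norm_num))

theorem caseI8 {e : J} (hcr : Crit F J 8 e) (hn : ngen F J = 3) {x : J} {φ : J →ₗ[F] F}
    {M : Submodule F J} (h : CvI F x 8 φ M)
    (h1 : finrank F (M ⊓ jpow F J 2 : Submodule F J) = 1) : False := by
  have hfin := hcr.fin
  by_cases hB : ∀ v ∈ M, v * v ∈ Cg F x 1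
  · refine h.end_I hcr hn (p := 1) (q := 3) (r := 4) (by norm_num) (by norm_num) (by norm_num)
      (by norm_num) (by norm_num) (by norm_num) (by norm_num) (by norm_num) (by norm_num)
      (by norm_num) (by norm_num) (by norm_num) (by norm_num) (Or.inr ?_)
      (Or.inl (by norm_num))
    intro v hv v' hv'
    have e1 : v * v' = (2 : F)⁻¹ • ((v + v') * (v + v') - v * v - v' * v') := by
      have : (v + v') * (v + v') - v * v - v' * v' = (2 : F) • (v * v') := by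
        rw [add_mul, mul_add, mul_add, mul_comm v' v, two_smul]
        abel
      rw [this, smul_smul, inv_mul_cancel₀ h.two, one_smul]
    rw [e1]
    exact Submodule.smul_mem _ _ (sub_mem (sub_mem (hB _ (add_mem hv hv')) (hB v hv)) (hB v' hv'))
  · push Not at hB
    obtain ⟨v, hv, hvv⟩ := hB
    obtain ⟨s, hs, m, hm, hm2, e1⟩ := h.vv hv hv
    have hm0 : m ≠ 0 := by
      rintro rfl
      apply hvv
      rw [e1, add_zero]
      exact Cg_anti x (by norm_num) hs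
    have e3 : v * (v * v) = m * v := by
      rw [e1, mul_add, mul_comm v s, h.Cv4 hv (k := 6) (by norm_num) hs, zero_add, mul_comm]
    have e4 : v * (v * (v * v)) = 0 := by
      rw [e3, mul_comm v]
      exact h.Cv4 hv (k := 7) (by norm_num) (h.wv hm hm2 hv).2
    have e5 : (v * v) * (v * v) = 0 := by
      rw [bb_xp F h.two h.jordan v]
      exact e4
    have e6 : m * m = 0 := by
      rw [e1, add_mul, mul_add, mul_add] at e5
      have z1 : s * s = 0 := h.zero_Cg (h.Cg_mul_Cg (i := 6) (j := 6) (by norm_num) (by norm_num)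
        (by norm_num) hs hs)
      have z2 : s * m = 0 := h.Cw3 hm hm2 (k := 6) (by norm_num) hs
      rw [z1, mul_comm m s, z2, zero_add, zero_add, zero_add] at e5
      exact e5
    refine h.end_I hcr hn (p := 3) (q := 7) (r := 14) (by norm_num) (by norm_num) (by norm_num)
      (by norm_num) (by norm_num) (by norm_num) (by norm_num) (by norm_num) (by norm_num)
      (by norm_num) (by norm_num) (by norm_num) (by norm_num) (Or.inl (by norm_num))
      (Or.inr ?_)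
    obtain ⟨⟨w0, hw0⟩, hw0', hall⟩ := finrank_eq_one_iff'.mp h1
    have hrep : ∀ w ∈ M, w ∈ jpow F J 2 → ∃ r : F, w = r • m := by
      obtain ⟨r0, hr0⟩ := hall ⟨m, hm, hm2⟩
      have hr0' : r0 • w0 = m := congrArg Subtype.val hr0
      have hr0n : r0 ≠ 0 := by
        rintro rfl
        rw [zero_smul] at hr0'
        exact hm0 hr0'.symm
      intro w hw hw2
      obtain ⟨r1, hr1⟩ := hall ⟨w, hw, hw2⟩
      have hr1' : r1 • w0 = w := congrArg Subtype.val hr1
      refine ⟨r1 * r0⁻¹, ?_⟩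
      rw [← hr0', smul_smul, mul_assoc, inv_mul_cancel₀ hr0n, mul_one, hr1']
    intro w hw hw2 w' hw' hw2'
    obtain ⟨a, rfl⟩ := hrep w hw hw2
    obtain ⟨b, rfl⟩ := hrep w' hw' hw2'
    rw [smul_mul_smul_comm, e6, smul_zero]

end L2
end JD
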