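import Pool.Agent.H33.JD.CaseI

set_option autoImplicit false
set_option linter.unusedSectionVars false
set_option linter.unusedVariables false

/-!
# JD: class at least 7, three generators, curvilinear: `M ∩ J⁴ = 0` if `dim M ∩ J³ = 1`, `dim M ∩ J² = 2`
-/

namespace JD
namespace L2

universe u

open Module

variable {F : Type u} [Field F] {J : Type u} [NonUnitalNonAssocCommRing J] [Module F J]
  [IsScalarTower F J J] [SMulCommClass F J J]

theorem caseIII [Module.Finite F J] {x : J} {c : ℕ} {φ : J →ₗ[F] F} {M : Submodule F J}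
    (h : Cv F x c φ M) (h2 : finrank F (M ⊓ jpow F J 2 : Submodule F J) = 2)
    (h3 : finrank F (M ⊓ jpow F J 3 : Submodule F J) = 1) : M ⊓ jpow F J 4 = ⊥ := by
  have hc := h.hc
  have hle23 : M ⊓ jpow F J 3 ≤ M ⊓ jpow F J 2 := inf_le_inf_left M (jpow_anti (by omega))
  obtain ⟨⟨w', hw'M, hw'3⟩, hw'0, hall⟩ := finrank_eq_one_iff'.mp h3
  have hw'ne : w' ≠ 0 := fun h0 => hw'0 (Subtype.ext h0)
  have hrep : ∀ m ∈ M, m ∈ jpow F J 3 → ∃ r : F, m = r • w' := by
    intro m hm hm3
    obtain ⟨r, hr⟩ := hall ⟨m, hm, hm3⟩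
    exact ⟨r, (congrArg Subtype.val hr).symm⟩
  -- (0)
  obtain ⟨r0, hr0, hr0'⟩ : ∃ r, w' ∈ jpow F J r ∧ w' ∉ jpow F J (r + 1) := by
    by_contra hcon
    push Not at hcon
    have : ∀ n, w' ∈ jpow F J n := by
      intro n
      induction n with
      | zero => rw [jpow_zero]; exact Submodule.mem_top
      | succ n ih => exact hcon n ih
    have h4 := this (c + 1)
    rw [h.bot, Submodule.mem_bot] at h4
    exact hw'ne h4
  have A0' : ∀ a : J, a * w' ∈ Cg F x 1 := by
    intro a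
    obtain ⟨s, hs, m, hm, hmk, e⟩ := h.dec (k := r0 + 1) (by omega)
      (p := a * w') (lmul_mem (by omega) a hr0)
    obtain ⟨s', hs', m', hm', hmk', e'⟩ := h.dec (k := 3) (by omega)
      (p := a * w') (jpow_anti (m := 3) (n := 4) (by omega) (lmul_mem (j := 3) (k := 4) (by omega) a hw'3))
    have hmm : m = m' := by
      have h0 : m - m' = 0 := by
        refine h.inter (c := c) (φ := φ) (M := M) ?_ (sub_mem hm hm')
        have : m - m' = s' - s := by
          have : s + m = s' + m' := by rw [← e, ← e']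
          rw [sub_eq_sub_iff_add_eq_add, add_comm m s, this, add_comm]
        rw [this]
        exact sub_mem (Cg_anti x (by omega) hs') (Cg_anti x (by omega) hs)
      exact sub_eq_zero.mp h0
    obtain ⟨r, hr⟩ := hrep m' hm' hmk'
    rcases eq_or_ne r 0 with rfl | hrne
    · rw [e', hr, zero_smul, add_zero]
      exact Cg_anti x (by omega) hs'
    · exfalso
      apply hr0'
      rw [hmm, hr] at hmk
      have := Submodule.smul_mem _ r⁻¹ hmk
      rwa [smul_smul, inv_mul_cancel₀ hrne, one_smul] at this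
  have A0 : ∀ a : J, ∀ m ∈ M, m ∈ jpow F J 3 → a * m ∈ Cg F x 1 := by
    intro a m hm hm3
    obtain ⟨r, rfl⟩ := hrep m hm hm3
    rw [mul_smul_comm]
    exact Submodule.smul_mem _ _ (A0' a)
  have x3 : ∀ m ∈ M, m ∈ jpow F J 3 → x * m = 0 := by
    intro m hm hm3
    exact h.inter (A0 x m hm hm3) (h.M_mul hm)
  have CC : ∀ {s s' : J}, s ∈ Cg F x 1 → s' ∈ Cg F x 1 → s * s' ∈ Cg F x 1 := by
    intro s s' hs hs'
    exact h.Cg_mul_Cg (i := 1) (j := 1) (by omega) le_rfl le_rfl hs hs'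
  have xC : ∀ {s : J}, s ∈ Cg F x 1 → x * s ∈ Cg F x 1 := fun hs =>
    h.x_Cg (i := 1) le_rfl (by omega) hs
  have bC : ∀ {s : J}, s ∈ Cg F x 1 → (x * x) * s ∈ Cg F x 1 := fun hs =>
    h.b_Cg (i := 1) le_rfl (by omega) hs
  -- multiplication by `x`, `x²` on `J³`
  have xJ3 : ∀ p ∈ jpow F J 3, x * p ∈ Cg F x 1 := by
    intro p hp
    obtain ⟨s, hs, m, hm, hm3, rfl⟩ := h.dec (k := 3) (by omega) hp
    rw [mul_add]
    exact add_mem (xC (Cg_anti x (by omega) hs)) (A0 _ m hm hm3)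
  have bJ3 : ∀ p ∈ jpow F J 3, (x * x) * p ∈ Cg F x 1 := by
    intro p hp
    obtain ⟨s, hs, m, hm, hm3, rfl⟩ := h.dec (k := 3) (by omega) hp
    rw [mul_add]
    exact add_mem (bC (Cg_anti x (by omega) hs)) (A0 _ m hm hm3)
  have xxv3 : ∀ v ∈ M, x * (x * v) ∈ M ∧ x * (x * v) ∈ jpow F J 3 := fun v hv =>
    ⟨h.M_mul (h.M_mul hv), lmul_mem (by omega) x (mul_mem_two x v)⟩
  have bv3 : ∀ v : J, (x * x) * v ∈ jpow F J 3 := fun v =>
    mul_mem_j (by omega) (mul_mem_two x x) (mem_one v)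
  -- (3)
  have P : ∀ k, 3 ≤ k → ∀ v ∈ M, xp x k * v ∈ Cg F x 1 := by
    intro k
    induction k using Nat.strong_induction_on with
    | _ k ih =>
      intro hk v hv
      obtain ⟨hxx, hxx3⟩ := xxv3 v hv
      rcases Nat.lt_or_ge k 5 with h5 | h5
      · obtain rfl | rfl : k = 3 ∨ k = 4 := by omega
        · rw [x3m F h.two h.jordan, x3 _ hxx hxx3, smul_zero, sub_zero,
            comm1 F h.two h.jordan]
          exact Submodule.smul_mem _ _ (xJ3 _ (bv3 v))
        · rw [x4m F h.two h.jordan, x3 _ hxx hxx3, mul_zero, smul_zero, sub_zero]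
          exact add_mem (bJ3 _ (bv3 v)) (Submodule.smul_mem _ _ (A0 _ _ hxx hxx3))
      · obtain ⟨i, rfl⟩ : ∃ i, k = i + 2 := ⟨k - 2, by omega⟩
        rw [xp_rec F h.two h.jordan x (by omega) v]
        have i1 := ih (i + 1) (by omega) (by omega) _ (h.M_mul hv)
        have i2 := ih i (by omega) (by omega) v hv
        exact sub_mem (sub_mem (add_mem (Submodule.smul_mem _ _ i1) (bC i2)) (xC (xC i2)))
          (A0 _ _ hxx hxx3)
  have PC : ∀ {s v : J}, s ∈ Cg F x 3 → v ∈ M → s * v ∈ Cg F x 1 := by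
    intro s v hs hv
    exact h.Cg_mul (k := 3) (fun i hi => P i hi v hv) hs
  -- (4)
  have JJ3 : ∀ a : J, ∀ p ∈ jpow F J 3, a * p ∈ Cg F x 1 := by
    intro a p hp
    obtain ⟨s, hs, m, hm, hm3, rfl⟩ := h.dec (k := 3) (by omega) hp
    obtain ⟨n, hn, ha⟩ := h.exists_dec a
    rw [mul_add]
    refine add_mem ?_ (A0 a m hm hm3)
    rw [ha, add_mul]
    refine add_mem (CC (cp_mem x c φ a) (Cg_anti x (by omega) hs)) ?_
    rw [mul_comm]
    exact PC hs hn
  -- `M₂ = F w + M₃` for every `w ∈ M₂ \ M₃`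
  have hM2 : ∀ w ∈ M, w ∈ jpow F J 2 → w ∉ jpow F J 3 → ∀ v ∈ M, v ∈ jpow F J 2 →
      ∃ a : F, ∃ m ∈ M, m ∈ jpow F J 3 ∧ v = a • w + m := by
    intro w hw hw2 hw3 v hv hv2
    have hnot : w ∉ M ⊓ jpow F J 3 := fun hh => hw3 hh.2
    have hle : (M ⊓ jpow F J 3) ⊔ Submodule.span F {w} ≤ M ⊓ jpow F J 2 :=
      sup_le hle23 (by rw [Submodule.span_singleton_le_iff_mem]; exact ⟨hw, hw2⟩)
    have heq := Submodule.eq_of_le_of_finrank_eq hle (by rw [finrank_sup_one hnot, h2, h3])
    have hv' : v ∈ M ⊓ jpow F J 2 := ⟨hv, hv2⟩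
    rw [← heq] at hv'
    obtain ⟨m, ⟨hm, hm3⟩, q, hq, rfl⟩ := Submodule.mem_sup.mp hv'
    obtain ⟨a, rfl⟩ := Submodule.mem_span_singleton.mp hq
    exact ⟨a, m, hm, hm3, add_comm _ _⟩
  -- products `x² (a b)`, when the last term is in `C`
  have hxv2 : ∀ v ∈ M, (x * x) * (x * v) ∈ Cg F x 1 := by
    intro v hv
    rw [comm1 F h.two h.jordan]
    exact xJ3 _ (bv3 v)
  have hCv : ∀ s ∈ Cg F x 1, ∀ v ∈ M, (x * x) * (s * v) ∈ Cg F x 1 := by
    intro s hs v hv
    have hle : Cg F x 1 ≤ (Cg F x 1).comap (LinearMap.mulLeft F (x * x) ∘ₗ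
        LinearMap.mulRight F v) := by
      refine Cg_le x fun i hi => ?_
      rw [Submodule.mem_comap, LinearMap.comp_apply, LinearMap.mulRight_apply,
        LinearMap.mulLeft_apply]
      rcases Nat.lt_or_ge i 3 with h3' | h3'
      · obtain rfl | rfl : i = 1 ∨ i = 2 := by omega
        · rw [xp_one]; exact hxv2 v hv
        · rw [xp_two]; exact bJ3 _ (bv3 v)
      · exact bC (P i h3' v hv)
    exact hle hs
  have hx2vv : ∀ v ∈ M, ∀ v' ∈ M, (x * v) * (x * v') ∈ Cg F x 1 →
      (x * x) * (v * v') ∈ Cg F x 1 := by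
    intro v hv v' hv' hh
    have e1 := comm2 F h.two h.jordan x v v'
    have e3 : (x * x) * (v * v') = v * ((x * x) * v') +
        (2 : F) • (x * ((x * v) * v') - (x * v) * (x * v')) := by
      rw [← e1]; abel
    rw [e3]
    refine add_mem (JJ3 v _ (bv3 v')) (Submodule.smul_mem _ _ (sub_mem ?_ hh))
    exact xJ3 _ (mul_mem_j (by omega) (mul_mem_two x v) (mem_one v'))
  -- (5)
  have bM2 : ∀ w ∈ M, w ∈ jpow F J 2 → (x * x) * w ∈ Cg F x 1 := by
    by_cases hα : ∀ v ∈ M, x * v ∈ jpow F J 3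
    · intro w hw hw2
      have hle : jpow F J 2 ≤ (Cg F x 1).comap (LinearMap.mulLeft F (x * x)) := by
        refine jpow_le_of le_rfl _ fun i j _ _ _ a _ b _ => ?_
        rw [Submodule.mem_comap, LinearMap.mulLeft_apply]
        obtain ⟨m, hm, ha⟩ := h.exists_dec a
        obtain ⟨m', hm', hb⟩ := h.exists_dec b
        have e : (x * x) * (a * b) = (x * x) * (cp F x c φ a * cp F x c φ b) +
            (x * x) * (cp F x c φ a * m') + (x * x) * (cp F x c φ b * m) +
            (x * x) * (m * m') := by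
          conv_lhs => rw [ha, hb]
          rw [mul_add (cp F x c φ a + m), add_mul, add_mul, mul_comm m (cp F x c φ b), mul_add,
            mul_add, mul_add]
          abel
        rw [e]
        refine add_mem (add_mem (add_mem ?_ ?_) ?_) ?_
        · exact bC (CC (cp_mem x c φ a) (cp_mem x c φ b))
        · exact hCv _ (cp_mem x c φ a) m' hm'
        · exact hCv _ (cp_mem x c φ b) m hm
        · exact hx2vv m hm m' hm' (A0 _ _ (h.M_mul hm') (hα m' hm'))
      exact hle hw2
    · push Not at hα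
      obtain ⟨v0, hv0, hv03⟩ := hα
      intro w hw hw2
      obtain ⟨a, m, hm, hm3, rfl⟩ := hM2 (x * v0) (h.M_mul hv0) (mul_mem_two x v0) hv03 w hw hw2
      rw [mul_add, mul_smul_comm]
      exact add_mem (Submodule.smul_mem _ _ (hxv2 v0 hv0)) (A0 _ m hm hm3)
  have C2w : ∀ s ∈ Cg F x 2, ∀ w ∈ M, w ∈ jpow F J 2 → s * w ∈ Cg F x 1 := by
    intro s hs w hw hw2
    refine h.Cg_mul (k := 2) (fun i hi => ?_) hs
    rcases Nat.eq_or_lt_of_le hi with rfl | hlt
    · rw [xp_two]; exact bM2 w hw hw2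
    · exact P i hlt w hw
  -- (6), (7): an element `w` with `w w ∈ C`
  obtain ⟨w, hw, hw2, hw3, hww⟩ : ∃ w ∈ M, w ∈ jpow F J 2 ∧ w ∉ jpow F J 3 ∧
      w * w ∈ Cg F x 1 := by
    by_cases hα : ∀ v ∈ M, x * v ∈ jpow F J 3
    · -- some square `v v` is not in `C + M₃`
      have hex : ∃ v ∈ M, v * v ∉ Cg F x 1 ⊔ (M ⊓ jpow F J 3) := by
        by_contra hcon
        push Not at hcon
        have hvv : ∀ v ∈ M, ∀ v' ∈ M, v * v' ∈ Cg F x 1 ⊔ (M ⊓ jpow F J 3) := by
          intro v hv v' hv'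
          have e1 : v * v' = (2 : F)⁻¹ • ((v + v') * (v + v') - v * v - v' * v') := by
            have : (v + v') * (v + v') - v * v - v' * v' = (2 : F) • (v * v') := by
              rw [add_mul, mul_add, mul_add, mul_comm v' v, two_smul]
              abel
            rw [this, smul_smul, inv_mul_cancel₀ h.two, one_smul]
          rw [e1]
          exact Submodule.smul_mem _ _ (sub_mem (sub_mem (hcon _ (add_mem hv hv')) (hcon v hv))
            (hcon v' hv'))
        have hsv : ∀ s ∈ Cg F x 1, ∀ v ∈ M, s * v ∈ Cg F x 1 ⊔ (M ⊓ jpow F J 3) := by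
          intro s hs v hv
          refine h.Cg_mul (k := 1) (fun i hi => ?_) hs
          rcases Nat.lt_or_ge i 3 with h3' | h3'
          · obtain rfl | rfl : i = 1 ∨ i = 2 := by omega
            · rw [xp_one]
              exact Submodule.mem_sup_right ⟨h.M_mul hv, hα v hv⟩
            · rw [xp_two]
              obtain ⟨s, hs, m, hm, hm3, e⟩ := h.dec (k := 3) (by omega) (bv3 v)
              rw [e]
              exact Submodule.add_mem_sup (Cg_anti x (by omega) hs) ⟨hm, hm3⟩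
          · exact Submodule.mem_sup_left (P i h3' v hv)
        have hle : jpow F J 2 ≤ Cg F x 1 ⊔ (M ⊓ jpow F J 3) := by
          refine jpow_le_of le_rfl _ fun i j _ _ _ a _ b _ => ?_
          obtain ⟨m, hm, ha⟩ := h.exists_dec a
          obtain ⟨m', hm', hb⟩ := h.exists_dec b
          have e : a * b = cp F x c φ a * cp F x c φ b + cp F x c φ a * m' +
              cp F x c φ b * m + m * m' := by
            conv_lhs => rw [ha, hb]
            rw [mul_add, add_mul, add_mul, mul_comm m (cp F x c φ b)]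
            abel
          rw [e]
          refine add_mem (add_mem (add_mem ?_ ?_) ?_) (hvv m hm m' hm')
          · exact Submodule.mem_sup_left (CC (cp_mem x c φ a) (cp_mem x c φ b))
          · exact hsv _ (cp_mem x c φ a) m' hm'
          · exact hsv _ (cp_mem x c φ b) m hm
        have hle' : M ⊓ jpow F J 2 ≤ M ⊓ jpow F J 3 := by
          rintro p ⟨hp, hp2⟩
          obtain ⟨s, hs, m, hm, e⟩ := Submodule.mem_sup.mp (hle hp2)
          have : p = m := by
            have h0 : p - m = 0 := by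
              refine h.inter ?_ (sub_mem hp hm.1)
              rw [← e, add_sub_cancel_right]
              exact hs
            exact sub_eq_zero.mp h0
          rw [this]
          exact hm
        have := Submodule.finrank_mono hle'
        omega
      obtain ⟨v, hv, hvv⟩ := hex
      obtain ⟨s, hs, w, hw, hw2, e⟩ := h.dec (k := 2) (by omega) (mul_mem_two v v)
      refine ⟨w, hw, hw2, ?_, ?_⟩
      · intro hw3
        apply hvv
        rw [e]
        exact Submodule.add_mem_sup (Cg_anti x (by omega) hs) ⟨hw, hw3⟩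
      · have e1 : (v * v) * (v * v) ∈ Cg F x 1 := by
          rw [bb_xp F h.two h.jordan v]
          exact JJ3 v _ (xp_mem v 3)
        have e3 : w * w = (v * v) * (v * v) - s * s - (2 : F) • (s * w) := by
          rw [e, add_mul, mul_add, mul_add, mul_comm w s, two_smul]
          abel
        rw [e3]
        refine sub_mem (sub_mem e1 (CC (Cg_anti x (by omega) hs) (Cg_anti x (by omega) hs))) ?_
        exact Submodule.smul_mem _ _ (C2w s hs w hw hw2)
    · push Not at hα
      obtain ⟨v0, hv0, hv03⟩ := hα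
      refine ⟨x * v0, h.M_mul hv0, mul_mem_two x v0, hv03, ?_⟩
      have e1 := gJ2 F h.two h.jordan x v0 v0
      obtain ⟨s, hs, m, hm, hm2, e⟩ := h.dec (k := 2) (by omega) (mul_mem_two v0 v0)
      have m1 : (x * x) * (v0 * v0) ∈ Cg F x 1 := by
        rw [e, mul_add]
        exact add_mem (bC (Cg_anti x (by omega) hs)) (bM2 m hm hm2)
      have m2 : v0 * ((x * x) * v0) ∈ Cg F x 1 := JJ3 v0 _ (bv3 v0)
      have m3 : x * ((x * v0) * v0) ∈ Cg F x 1 :=
        xJ3 _ (mul_mem_j (by omega) (mul_mem_two x v0) (mem_one v0))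
      have e3 : (x * v0) * (x * v0) = (2 : F)⁻¹ • (v0 * ((x * x) * v0) +
          (2 : F) • (x * ((x * v0) * v0)) - (x * x) * (v0 * v0)) := by
        rw [← e1, add_sub_cancel_left, smul_smul, inv_mul_cancel₀ h.two, one_smul]
      rw [e3]
      exact Submodule.smul_mem _ _ (sub_mem (add_mem m2 (Submodule.smul_mem _ _ m3)) m1)
  -- `M₂ M₂ ⊂ C`
  have M2M2 : ∀ p ∈ M, p ∈ jpow F J 2 → ∀ q ∈ M, q ∈ jpow F J 2 → p * q ∈ Cg F x 1 := by
    intro p hp hp2 q hq hq2
    obtain ⟨a, m, hm, hm3, rfl⟩ := hM2 w hw hw2 hw3 p hp hp2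
    obtain ⟨b, n, hn, hn3, rfl⟩ := hM2 w hw hw2 hw3 q hq hq2
    rw [mul_add]
    refine add_mem ?_ (A0 _ n hn hn3)
    rw [add_mul]
    refine add_mem ?_ ?_
    · rw [smul_mul_smul_comm]
      exact Submodule.smul_mem _ _ hww
    · rw [mul_comm]
      exact A0 _ m hm hm3
  have J4 : jpow F J 4 ≤ Cg F x 1 := by
    refine jpow_le_of (by omega) _ fun i j hi hj hij a ha b hb => ?_
    obtain ⟨rfl, rfl⟩ | ⟨rfl, rfl⟩ | ⟨rfl, rfl⟩ : (i = 1 ∧ j = 3) ∨ (i = 2 ∧ j = 2) ∨
        (i = 3 ∧ j = 1) := by omega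
    · exact JJ3 a b hb
    · obtain ⟨s, hs, m, hm, hm2, rfl⟩ := h.dec (k := 2) (by omega) ha
      obtain ⟨s', hs', m', hm', hm2', rfl⟩ := h.dec (k := 2) (by omega) hb
      rw [mul_add, add_mul, add_mul]
      refine add_mem (add_mem (CC (Cg_anti x (by omega) hs) (Cg_anti x (by omega) hs')) ?_)
        (add_mem (C2w s hs m' hm' hm2') (M2M2 m hm hm2 m' hm' hm2'))
      rw [mul_comm]
      exact C2w s' hs' m hm hm2
    · rw [mul_comm]
      exact JJ3 b a ha
  rw [eq_bot_iff]
  rintro p ⟨hp, hp4⟩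
  rw [Submodule.mem_bot]
  exact h.inter (J4 hp4) hp

end L2
end JD
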