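import Pool.Agent.H9.JN.One

set_option autoImplicit false
set_option linter.unusedSectionVars false

/-!
# JD (class at least 7, three generators): characters

`Chr F J m χ`: linear functionals `χ i`, `χ i = 0` on `J^(i+1)` (`1 ≤ i ≤ m`), `χ (i+j) (a b) = χ i a * χ j b` for `a ∈ J^i`, `b ∈ J^j`,
`i + j ≤ m`, `χ 1 ≠ 0`. `HY.chr`: for a hyperplane `K` of `J^m`, `m ≥ 6`, with small layers there is a character with kernel `K` on `J^m`.
-/

namespace JD

universe u

open Module

variable {F : Type u} [Field F] {J : Type u} [NonUnitalNonAssocCommRing J] [Module F J]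
  [IsScalarTower F J J] [SMulCommClass F J J]

/-- characters of level `m` -/
structure Chr (F : Type u) [Field F] (J : Type u) [NonUnitalNonAssocCommRing J] [Module F J]
    [IsScalarTower F J J] [SMulCommClass F J J] (m : ℕ) (χ : ℕ → J →ₗ[F] F) : Prop where
  kill : ∀ i, 1 ≤ i → i ≤ m → ∀ a ∈ jpow F J (i + 1), χ i a = 0
  mul : ∀ i j, 1 ≤ i → 1 ≤ j → i + j ≤ m → ∀ a ∈ jpow F J i, ∀ b ∈ jpow F J j,
    χ (i + j) (a * b) = χ i a * χ j b
  one : ∃ x, χ 1 x = 1

namespace Chr

variable {m : ℕ} {χ χ' : ℕ → J →ₗ[F] F}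

theorem xp_val (h : Chr F J m χ) (x : J) {n : ℕ} (hn : 1 ≤ n) (hm : n ≤ m) :
    χ n (xp x n) = χ 1 x ^ n := by
  induction n, hn using Nat.le_induction with
  | base => rw [xp_one, pow_one]
  | succ n hn ih =>
    rw [xp_succ x hn, Nat.add_comm n 1, h.mul 1 n le_rfl hn (by omega) x (mem_jpow_one x) _
      (xp_mem x hn), ih (by omega), pow_add, pow_one]

theorem mono (h : Chr F J m χ) {m' : ℕ} (hm : m' ≤ m) : Chr F J m' χ :=
  ⟨fun i hi hi' => h.kill i hi (by omega), fun i j hi hj hij => h.mul i j hi hj (by omega), h.one⟩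

/-- uniqueness -/
theorem uniq (h : Chr F J m χ) (h' : Chr F J m χ') {t : F} (h1 : ∀ a, χ' 1 a = t * χ 1 a) {n : ℕ}
    (hn : 1 ≤ n) (hm : n ≤ m) : ∀ a ∈ jpow F J n, χ' n a = t ^ n * χ n a := by
  induction n using Nat.strong_induction_on with
  | _ n ih =>
    rcases Nat.lt_or_ge n 2 with hn2 | hn2
    · obtain rfl : n = 1 := by omega
      intro a _
      rw [h1, pow_one]
    · intro a ha
      have hle : jpow F J n ≤ LinearMap.ker (χ' n - t ^ n • χ n) := by
        refine jpow_le_of hn2 _ fun i j hi hj hij a ha b hb => ?_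
        rw [LinearMap.mem_ker, LinearMap.sub_apply, LinearMap.smul_apply, sub_eq_zero, ← hij,
          h.mul i j hi hj (by omega) a ha b hb, h'.mul i j hi hj (by omega) a ha b hb,
          ih i (by omega) hi (by omega) a ha, ih j (by omega) hj (by omega) b hb, smul_eq_mul,
          pow_add]
        ring
      have := hle ha
      rw [LinearMap.mem_ker, LinearMap.sub_apply, LinearMap.smul_apply, sub_eq_zero,
        smul_eq_mul] at this
      exact this

/-- scaling -/
theorem scale (h : Chr F J m χ) {t : F} (ht : t ≠ 0) : Chr F J m (fun n => t ^ n • χ n) := by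
  refine ⟨fun i hi hi' a ha => ?_, fun i j hi hj hij a ha b hb => ?_, ?_⟩
  · rw [LinearMap.smul_apply, h.kill i hi hi' a ha, smul_zero]
  · rw [LinearMap.smul_apply, LinearMap.smul_apply, LinearMap.smul_apply,
      h.mul i j hi hj hij a ha b hb, smul_eq_mul, smul_eq_mul, smul_eq_mul, pow_add]
    ring
  · obtain ⟨x, hx⟩ := h.one
    refine ⟨t⁻¹ • x, ?_⟩
    rw [LinearMap.smul_apply, map_smul, hx, smul_eq_mul, smul_eq_mul, pow_one, mul_one,
      mul_inv_cancel₀ ht]

theorem notMem (h : Chr F J m χ) {x : J} (hx : χ 1 x ≠ 0) {n : ℕ} (hn : 1 ≤ n) (hm : n ≤ m) :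
    xp x n ∉ jpow F J (n + 1) := by
  intro h0
  have h1 := h.xp_val x hn hm
  rw [h.kill n hn hm _ h0] at h1
  exact pow_ne_zero n hx h1.symm

theorem dlay_pos [Module.Finite F J] (h : Chr F J m χ) {n : ℕ} (hn : 1 ≤ n) (hm : n ≤ m) :
    1 ≤ dlay F J n := by
  obtain ⟨x, hx⟩ := h.one
  exact dlay_pos_of x hn (h.notMem (x := x) (by rw [hx]; exact one_ne_zero) hn hm)

end Chr

theorem HY.chr [Module.Finite F J] [Infinite F] (h2 : (2 : F) ≠ 0) (hJ : IsJordan J) {m : ℕ}
    (hm : 6 ≤ m) {K : Submodule F J} (h : HY F J m K)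
    (hs : ∑ i ∈ Finset.Ico 2 m, dlay F J i ≤ 6) (hd2 : 2 ≤ dlay F J 2) :
    ∃ χ : ℕ → J →ₗ[F] F, Chr F J m χ ∧ ∀ g ∈ jpow F J m, (χ m g = 0 ↔ g ∈ K) := by
  obtain ⟨J', i1, i2, i3, i4, g, e, hfin, hJ', he, htop, hbot, hker, hsurj, hmul, hd⟩ :=
    exists_quo hJ h
  obtain ⟨A, j1, j2, j3, j4, D, π, hG, -, hmap, hπ, -, hkill, htk, hdim, -⟩ :=
    exists_GJ F J' h2 hJ' m (by omega) e he htop hbot
  have hs' : ∑ i ∈ Finset.Ico 2 m, dlay F J' i ≤ 6 := by
    refine le_of_eq_of_le (Finset.sum_congr rfl fun i hi => ?_) hs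
    rw [Finset.mem_Ico] at hi
    exact hd i hi.2
  have hAfin := hG.fin
  have hle : ∀ i, 1 ≤ i → finrank F (D i) ≤ dlay F J' i := by
    intro i hi
    have := hdim i hi
    unfold dlay
    omega
  have hD1 : finrank F (D 1) = 1 := by
    rcases gj_curv h2 hJ' hm he htop hbot hs' hG hmap hπ htk hdim with h1 | h1
    · exact h1
    · exfalso
      obtain ⟨rfl, -, -, d3, d4, d5, -, -⟩ := h1
      simp [Finset.sum_Ico_eq_sum_range, Finset.sum_range_succ] at hs
      have l3 := hle 3 (by norm_num)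
      have l4 := hle 4 (by norm_num)
      have l5 := hle 5 (by norm_num)
      rw [hd 3 (by norm_num)] at l3
      rw [hd 4 (by norm_num)] at l4
      rw [hd 5 (by norm_num)] at l5
      omega
  obtain ⟨y, hy, hy0, φ1, hφ1, hφ⟩ := exists_coord hD1
  -- the layers
  have hDn : ∀ n, 1 ≤ n → xp y n ∈ D n ∧ D n ≤ Submodule.span F {xp y n} := by
    intro n
    induction n using Nat.strong_induction_on with
    | _ n ih =>
      intro hn
      rcases Nat.lt_or_ge n 3 with h3 | h3
      · obtain rfl | rfl : n = 1 ∨ n = 2 := by omega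
        · refine ⟨hy, fun a ha => ?_⟩
          rw [xp_one, hφ a ha]
          exact Submodule.smul_mem _ _ (Submodule.mem_span_singleton_self _)
        · refine ⟨hG.mul_mem 1 1 le_rfl le_rfl y hy y hy, ?_⟩
          refine hG.gen2 _ fun v hv w hw => ?_
          rw [hφ v hv, hφ w hw, smul_mul_smul_comm]
          exact Submodule.smul_mem _ _ (Submodule.mem_span_singleton_self _)
      · have key : ∀ i j, 1 ≤ i → 1 ≤ j → i + j = n → ∀ a ∈ D i, ∀ b ∈ D j,
            a * b ∈ Submodule.span F {xp y n} := by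
          intro i j hi hj hij a ha b hb
          obtain ⟨r, rfl⟩ := Submodule.mem_span_singleton.mp ((ih i (by omega) hi).2 ha)
          obtain ⟨s, rfl⟩ := Submodule.mem_span_singleton.mp ((ih j (by omega) hj).2 hb)
          rw [smul_mul_smul_comm, xp_mul F h2 hG.jordan y hi hj, hij]
          exact Submodule.smul_mem _ _ (Submodule.mem_span_singleton_self _)
        refine ⟨?_, ?_⟩
        · obtain ⟨k, rfl⟩ : ∃ k, n = k + 1 := ⟨n - 1, by omega⟩
          rw [xp_succ y (by omega), Nat.add_comm k 1]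
          exact hG.mul_mem 1 k le_rfl (by omega) y hy _ (ih k (by omega) (by omega)).1
        · exact hG.gen n h3 _ (fun v hv a ha => key 1 (n - 1) le_rfl (by omega) (by omega) v hv a ha)
            (fun v hv a ha => key 2 (n - 2) (by omega) (by omega) (by omega) v hv a ha)
  have hym : xp y m ≠ 0 := by
    intro h0
    have h1 := (hDn m (by omega)).2
    rw [h0, Submodule.span_singleton_eq_bot.mpr rfl, le_bot_iff] at h1
    have ht := hG.top
    rw [h1, finrank_bot] at ht
    exact zero_ne_one ht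
  have hyn : ∀ n, 1 ≤ n → n ≤ m → xp y n ≠ 0 := by
    intro n hn hnm h0
    apply hym
    rcases Nat.eq_or_lt_of_le hnm with rfl | hlt
    · exact h0
    · have e1 := xp_mul F h2 hG.jordan y hn (by omega : 1 ≤ m - n)
      rw [h0, zero_mul, show n + (m - n) = m by omega] at e1
      exact e1.symm
  have hex : ∀ n, ∃ f : A →ₗ[F] F, 1 ≤ n → n ≤ m → f (xp y n) = 1 := by
    intro n
    by_cases hn : 1 ≤ n ∧ n ≤ m
    · obtain ⟨f, hf⟩ : ∃ f : A →ₗ[F] F, f (xp y n) ≠ 0 := by
        by_contra hcon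
        push Not at hcon
        exact hyn n hn.1 hn.2 ((Module.forall_dual_apply_eq_zero_iff F _).mp hcon)
      exact ⟨(f (xp y n))⁻¹ • f, fun _ _ => by
        rw [LinearMap.smul_apply, smul_eq_mul, inv_mul_cancel₀ hf]⟩
    · exact ⟨0, fun h h' => absurd ⟨h, h'⟩ hn⟩
  choose f hf using hex
  have hcoord : ∀ n, 1 ≤ n → n ≤ m → ∀ a ∈ D n, a = f n a • xp y n := by
    intro n hn hnm a ha
    obtain ⟨r, rfl⟩ := Submodule.mem_span_singleton.mp ((hDn n hn).2 ha)
    rw [map_smul, hf n hn hnm, smul_eq_mul, mul_one]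
  have hmem : ∀ i, 1 ≤ i → ∀ a ∈ jpow F J i, π i (g a) ∈ D i := by
    intro i hi a ha
    rw [← hmap i hi]
    refine Submodule.mem_map_of_mem ?_
    rw [← jpow_map g hmul hsurj i]
    exact Submodule.mem_map_of_mem ha
  have hgm : ∀ i, ∀ a ∈ jpow F J i, g a ∈ jpow F J' i := by
    intro i a ha
    rw [← jpow_map g hmul hsurj i]
    exact Submodule.mem_map_of_mem ha
  refine ⟨fun n => f n ∘ₗ π n ∘ₗ g, ⟨?_, ?_, ?_⟩, ?_⟩
  · intro i hi _ a ha
    rw [LinearMap.comp_apply, LinearMap.comp_apply, hkill i hi _ (hgm _ a ha), map_zero]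
  · intro i j hi hj hij a ha b hb
    rw [LinearMap.comp_apply, LinearMap.comp_apply, LinearMap.comp_apply, LinearMap.comp_apply,
      LinearMap.comp_apply, LinearMap.comp_apply, hmul,
      hπ i j hi hj _ (hgm _ a ha) _ (hgm _ b hb)]
    have e1 := hcoord i hi (by omega) _ (hmem i hi a ha)
    have e2 := hcoord j hj (by omega) _ (hmem j hj b hb)
    conv_lhs => rw [e1, e2]
    rw [smul_mul_smul_comm, xp_mul F h2 hG.jordan y hi hj, map_smul, hf (i + j) (by omega) hij,
      smul_eq_mul, mul_one]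
  · rw [← hmap 1 le_rfl] at hy
    obtain ⟨x', -, rfl⟩ := hy
    obtain ⟨x, rfl⟩ := hsurj x'
    refine ⟨x, ?_⟩
    have := hf 1 le_rfl (by omega)
    rw [xp_one] at this
    rw [LinearMap.comp_apply, LinearMap.comp_apply, this]
  · intro a ha
    rw [LinearMap.comp_apply, LinearMap.comp_apply]
    have e1 := hcoord m (by omega) le_rfl _ (hmem m (by omega) a ha)
    constructor
    · intro h0
      rw [h0, zero_smul] at e1
      have h1 := htk _ (hgm _ a ha) e1
      rw [← hker, LinearMap.mem_ker]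
      exact h1
    · intro h0
      rw [← hker, LinearMap.mem_ker] at h0
      rw [h0, map_zero, map_zero]

end JD
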