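import Pool.Agent.H33.JD.Char

set_option autoImplicit false
set_option linter.unusedSectionVars false

/-!
# JD: the common character

`exists_common`: the operators `L_p : J^m → J^c = F e`, `p ∈ J^r`, `r + m = c`, are all multiples of one character, if every hyperplane
`J^m ⊓ ker L_p` is the kernel of a character.
-/

namespace JD

universe u

open Module

variable {F : Type u} [Field F] {J : Type u} [NonUnitalNonAssocCommRing J] [Module F J]
  [IsScalarTower F J J] [SMulCommClass F J J]

/-- a functional with `ε e = 1`, `J^c = F e` -/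
theorem exists_eps {c : ℕ} {e : J} (he : e ≠ 0) (htop : jpow F J c = Submodule.span F {e}) :
    ∃ ε : J →ₗ[F] F, ε e = 1 ∧ ∀ a ∈ jpow F J c, a = ε a • e := by
  obtain ⟨f, hf⟩ : ∃ f : J →ₗ[F] F, f e ≠ 0 := by
    by_contra hcon
    push Not at hcon
    exact he ((Module.forall_dual_apply_eq_zero_iff F _).mp hcon)
  refine ⟨(f e)⁻¹ • f, by rw [LinearMap.smul_apply, smul_eq_mul, inv_mul_cancel₀ hf], ?_⟩
  intro a ha
  rw [htop] at ha
  obtain ⟨r, rfl⟩ := Submodule.mem_span_singleton.mp ha
  rw [map_smul, LinearMap.smul_apply, smul_eq_mul, smul_eq_mul, inv_mul_cancel₀ hf, mul_one]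

/-- the hyperplane `J^m ⊓ ker L_p` -/
theorem hy_ker [Module.Finite F J] {c m r : ℕ} {e : J} (hrm : r + m = c) (hr : 1 ≤ r)
    (he : e ≠ 0) (htop : jpow F J c = Submodule.span F {e}) (hbot : jpow F J (c + 1) = ⊥)
    {p : J} (hp : p ∈ jpow F J r) {g0 : J} (hg0 : g0 ∈ jpow F J m) (hpg : p * g0 ≠ 0) :
    HY F J m (jpow F J m ⊓ LinearMap.ker (LinearMap.mulLeft F p)) := by
  refine ⟨?_, inf_le_left, ?_⟩
  · refine le_inf (jpow_succ_le m) fun a ha => ?_
    rw [LinearMap.mem_ker, LinearMap.mulLeft_apply]
    have := mul_mem' (c + 1) (by omega) hp ha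
    rw [hbot] at this
    exact (Submodule.mem_bot F).mp this
  · let f : jpow F J m →ₗ[F] J := LinearMap.mulLeft F p ∘ₗ (jpow F J m).subtype
    have h1 := LinearMap.finrank_range_add_finrank_ker f
    have h3 : finrank F (LinearMap.range f) = 1 := by
      have hle : LinearMap.range f ≤ Submodule.span F {e} := by
        rintro _ ⟨⟨a, ha⟩, rfl⟩
        rw [← htop]
        exact mul_mem' c (by omega) hp ha
      apply le_antisymm
      · refine (Submodule.finrank_mono hle).trans ?_
        rw [finrank_span_singleton he]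
      · rw [Nat.one_le_iff_ne_zero]
        intro h0
        have h4 := Submodule.finrank_eq_zero.mp h0
        apply hpg
        have : f ⟨g0, hg0⟩ ∈ LinearMap.range f := ⟨_, rfl⟩
        rw [h4, Submodule.mem_bot] at this
        exact this
    have h4 : LinearMap.ker f = (LinearMap.ker (LinearMap.mulLeft F p)).comap
        (jpow F J m).subtype := rfl
    have h5 : finrank F (LinearMap.ker f) =
        finrank F (jpow F J m ⊓ LinearMap.ker (LinearMap.mulLeft F p) : Submodule F J) := by
      rw [h4, ← Submodule.map_comap_subtype]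
      exact LinearEquiv.finrank_eq
        (Submodule.equivMapOfInjective _ (Submodule.injective_subtype _) _)
    omega

/-- the common character -/
theorem exists_common [Module.Finite F J] [Infinite F] (h2 : (2 : F) ≠ 0) (hJ : IsJordan J)
    {c m r : ℕ} {e : J} (hrm : r + m = c) (hr : 1 ≤ r) (hm : 3 ≤ m)
    (he : e ≠ 0) (htop : jpow F J c = Submodule.span F {e}) (hbot : jpow F J (c + 1) = ⊥)
    (hchr : ∀ K, HY F J m K → ∃ χ : ℕ → J →ₗ[F] F, Chr F J m χ ∧
      ∀ g ∈ jpow F J m, (χ m g = 0 ↔ g ∈ K))
    {p0 : J} (hp0 : p0 ∈ jpow F J r) {g0 : J} (hg0 : g0 ∈ jpow F J m) (hpg : p0 * g0 ≠ 0) :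
    ∃ (χ : ℕ → J →ₗ[F] F) (t : J →ₗ[F] F), Chr F J m χ ∧ t p0 ≠ 0 ∧
      ∀ p ∈ jpow F J r, ∀ g ∈ jpow F J m, p * g = (t p * χ m g) • e := by
  obtain ⟨ε, hε, hεe⟩ := exists_eps he htop
  -- the character of one element
  have hone : ∀ p ∈ jpow F J r, (∃ g ∈ jpow F J m, p * g ≠ 0) →
      ∃ (χ : ℕ → J →ₗ[F] F) (s : F), Chr F J m χ ∧ s ≠ 0 ∧
        ∀ g ∈ jpow F J m, p * g = (s * χ m g) • e := by
    rintro p hp ⟨g1, hg1, hpg1⟩
    obtain ⟨χ, hχ, hK⟩ := hchr _ (hy_ker hrm hr he htop hbot hp hg1 hpg1)
    obtain ⟨x, hx⟩ := hχ.one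
    have hxm : xp x m ∈ jpow F J m := xp_mem x (by omega)
    have hχm : χ m (xp x m) = 1 := by rw [hχ.xp_val x (by omega) le_rfl, hx, one_pow]
    have hpm : p * xp x m = ε (p * xp x m) • e := hεe _ (mul_mem' c (by omega) hp hxm)
    have hall : ∀ g ∈ jpow F J m, p * g = (ε (p * xp x m) * χ m g) • e := by
      intro g hg
      have h1 : g - χ m g • xp x m ∈ jpow F J m :=
        Submodule.sub_mem _ hg (Submodule.smul_mem _ _ hxm)
      have h3 : χ m (g - χ m g • xp x m) = 0 := by
        rw [map_sub, map_smul, hχm, smul_eq_mul, mul_one, sub_self]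
      have h4 : LinearMap.mulLeft F p (g - χ m g • xp x m) = 0 := ((hK _ h1).mp h3).2
      rw [LinearMap.mulLeft_apply, mul_sub, mul_smul_comm, sub_eq_zero] at h4
      rw [h4]
      conv_lhs => rw [hpm]
      rw [smul_smul, mul_comm]
    refine ⟨χ, ε (p * xp x m), hχ, ?_, hall⟩
    intro h0
    apply hpg1
    rw [hall g1 hg1, h0, zero_mul, zero_smul]
  obtain ⟨χ, s, hχ, hs, h0⟩ := hone p0 hp0 ⟨g0, hg0, hpg⟩
  obtain ⟨x, hx⟩ := hχ.one
  have hxm : xp x m ∈ jpow F J m := xp_mem x (by omega)
  have hχm : χ m (xp x m) = 1 := by rw [hχ.xp_val x (by omega) le_rfl, hx, one_pow]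
  -- kernels
  have hker : ∀ p ∈ jpow F J r, ∀ g ∈ jpow F J m, χ m g = 0 → p * g = 0 := by
    intro p hp g hg hχg
    by_cases hex : ∃ g ∈ jpow F J m, p * g ≠ 0
    · obtain ⟨χ', s', hχ', hs', h1⟩ := hone p hp hex
      -- the first functionals are proportional
      have hpar : ∀ a, χ 1 a = 0 → χ' 1 a = 0 := by
        intro a ha
        by_contra hne
        by_cases hx' : ∃ x1, χ 1 x1 ≠ 0 ∧ χ' 1 x1 = 0
        · obtain ⟨x1, hx1, hx1'⟩ := hx'
          have mem : ∀ y : J, xp y m ∈ jpow F J m := fun y => xp_mem y (by omega)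
          have v1 : (p0 + p) * xp x1 m = (s * χ 1 x1 ^ m) • e := by
            rw [add_mul, h0 _ (mem x1), h1 _ (mem x1), hχ.xp_val x1 (by omega) le_rfl,
              hχ'.xp_val x1 (by omega) le_rfl, hx1', zero_pow (by omega), mul_zero, zero_smul,
              add_zero]
          have v2 : (p0 + p) * xp a m = (s' * χ' 1 a ^ m) • e := by
            rw [add_mul, h0 _ (mem a), h1 _ (mem a), hχ.xp_val a (by omega) le_rfl,
              hχ'.xp_val a (by omega) le_rfl, ha, zero_pow (by omega), mul_zero, zero_smul,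
              zero_add]
          have mem3 : a * xp x1 (m - 1) ∈ jpow F J m :=
            mul_mem' m (by omega) (mem_jpow_one a) (xp_mem x1 (by omega))
          have v3 : (p0 + p) * (a * xp x1 (m - 1)) = 0 := by
            have e1 : χ m (a * xp x1 (m - 1)) = 0 := by
              have := hχ.mul 1 (m - 1) le_rfl (by omega) (by omega) a (mem_jpow_one a) _
                (xp_mem x1 (by omega))
              rw [show 1 + (m - 1) = m by omega, ha, zero_mul] at this
              exact this
            have e3 : χ' m (a * xp x1 (m - 1)) = 0 := by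
              have := hχ'.mul 1 (m - 1) le_rfl (by omega) (by omega) a (mem_jpow_one a) _
                (xp_mem x1 (by omega))
              rw [show 1 + (m - 1) = m by omega, hχ'.xp_val x1 (by omega) (by omega), hx1',
                zero_pow (by omega), mul_zero] at this
              exact this
            rw [add_mul, h0 _ mem3, h1 _ mem3, e1, e3, mul_zero, mul_zero, zero_smul, add_zero]
          have hne1 : (p0 + p) * xp x1 m ≠ 0 := by
            rw [v1]
            exact smul_ne_zero (mul_ne_zero hs (pow_ne_zero m hx1)) he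
          obtain ⟨χ'', s'', hχ'', hs'', h3⟩ := hone (p0 + p) (Submodule.add_mem _ hp0 hp)
            ⟨_, mem x1, hne1⟩
          have w1 := h3 _ (mem x1)
          have w2 := h3 _ (mem a)
          have w3 := h3 _ mem3
          rw [hχ''.xp_val x1 (by omega) le_rfl] at w1
          rw [hχ''.xp_val a (by omega) le_rfl] at w2
          have e4 := hχ''.mul 1 (m - 1) le_rfl (by omega) (by omega) a (mem_jpow_one a) _
            (xp_mem x1 (by omega))
          rw [show 1 + (m - 1) = m by omega, hχ''.xp_val x1 (by omega) (by omega)] at e4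
          rw [e4, v3] at w3
          have n1 : χ'' 1 x1 ≠ 0 := by
            intro h0
            rw [h0, zero_pow (by omega), mul_zero, zero_smul] at w1
            exact hne1 w1
          have n2 : χ'' 1 a ≠ 0 := by
            intro h0
            rw [h0, zero_pow (by omega), mul_zero, zero_smul, v2] at w2
            exact smul_ne_zero (mul_ne_zero hs' (pow_ne_zero m hne)) he w2
          exact smul_ne_zero (mul_ne_zero hs'' (mul_ne_zero n2 (pow_ne_zero _ n1))) he w3.symm
        · push Not at hx'
          -- then `χ' 1` is nonzero wherever `χ 1` is: `x` and `x - t a`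
          have hxx := hx' x (by rw [hx]; exact one_ne_zero)
          have := hx' (x - (χ' 1 x / χ' 1 a) • a) (by
            rw [map_sub, map_smul, ha, smul_zero, sub_zero, hx]; exact one_ne_zero)
          apply this
          rw [map_sub, map_smul, smul_eq_mul, div_mul_cancel₀ _ hne, sub_self]
      have h1' : ∀ a, χ' 1 a = χ' 1 x * χ 1 a := by
        intro a
        have := hpar (a - χ 1 a • x) (by
          rw [map_sub, map_smul, hx, smul_eq_mul, mul_one, sub_self])
        rw [map_sub, map_smul, smul_eq_mul, sub_eq_zero] at this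
        rw [this, mul_comm]
      rw [h1 g hg, hχ.uniq hχ' h1' (by omega) le_rfl g hg, hχg, mul_zero, mul_zero, zero_smul]
    · push Not at hex
      exact hex g hg
  refine ⟨χ, ε ∘ₗ LinearMap.mulRight F (xp x m), hχ, ?_, ?_⟩
  · rw [LinearMap.comp_apply, LinearMap.mulRight_apply, h0 _ hxm, hχm, map_smul, hε, mul_one,
      smul_eq_mul, mul_one]
    exact hs
  · intro p hp g hg
    have h1 : g - χ m g • xp x m ∈ jpow F J m :=
      Submodule.sub_mem _ hg (Submodule.smul_mem _ _ hxm)
    have h3 : χ m (g - χ m g • xp x m) = 0 := by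
      rw [map_sub, map_smul, hχm, smul_eq_mul, mul_one, sub_self]
    have h4 := hker p hp _ h1 h3
    rw [mul_sub, mul_smul_comm, sub_eq_zero] at h4
    rw [h4, LinearMap.comp_apply, LinearMap.mulRight_apply]
    conv_lhs => rw [hεe _ (mul_mem' c (by omega) hp hxm)]
    rw [smul_smul, mul_comm]

end JD
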