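import Pool.Agent.H33.JD.Sev
import Pool.Agent.H78.L2.Spl

set_option autoImplicit false
set_option linter.unusedSectionVars false
set_option linter.unusedVariables false

/-!
# JD: class at least 7, three generators: the splitting `J = C + M` for a curvilinear algebra

`Cv F x c φ M`: `C_(≥ j) = Cg F x j`, `kap F x φ i v = φ (L_x^i v)`, `M` = common kernel of the `kap i`, `J^c = F x^c`, and (ORD): for
`a ∈ J^i`, `m ∈ M ∩ J^j` the `C`-part of `a m` lies in `C_(≥ i + j + 1)` (`Cv.cp_ord`).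
`exists_Cv`: from a character of level `c`.
-/

namespace JD
namespace L2

universe u

variable {F : Type u} [Field F] {J : Type u} [NonUnitalNonAssocCommRing J] [Module F J]
  [IsScalarTower F J J] [SMulCommClass F J J]

/-- the setting -/
structure Cv (F : Type u) [Field F] {J : Type u} [NonUnitalNonAssocCommRing J] [Module F J]
    [IsScalarTower F J J] [SMulCommClass F J J] (x : J) (c : ℕ) (φ : J →ₗ[F] F)
    (M : Submodule F J) : Prop where
  two : (2 : F) ≠ 0
  jordan : IsJordan J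
  hc : 7 ≤ c
  bot : jpow F J (c + 1) = ⊥
  top : φ (xp x c) = 1
  low : ∀ i, i < c → φ (xp x i) = 0
  mem : ∀ m, m ∈ M ↔ ∀ i, kap F x φ i m = 0
  topC : ∀ p ∈ jpow F J c, p = φ p • xp x c
  ord : ∀ i j, 1 ≤ i → 1 ≤ j → i + j ≤ c → ∀ a ∈ jpow F J i, ∀ m ∈ M, m ∈ jpow F J j →
    kap F x φ (c - (i + j)) (a * m) = 0

namespace Cv

variable {x : J} {c : ℕ} {φ : J →ₗ[F] F} {M : Submodule F J} (h : Cv F x c φ M)
include h

theorem xp_zero' {i : ℕ} (hi : c + 1 ≤ i) : xp x i = 0 := xp_eq_zero h.bot hi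

theorem zero_of_mem {n : ℕ} (hn : c + 1 ≤ n) {v : J} (hv : v ∈ jpow F J n) : v = 0 := by
  have := jpow_anti (F := F) (J := J) hn hv
  rwa [h.bot, Submodule.mem_bot] at this

theorem phi_xp (i : ℕ) : φ (xp x i) = if i = c then 1 else 0 := by
  split_ifs with hi
  · rw [hi, h.top]
  · rcases Nat.lt_or_ge i c with h1 | h1
    · exact h.low i h1
    · rw [h.xp_zero' (by omega), map_zero]

theorem kap_xp' (i j : ℕ) (hj : 1 ≤ j) : kap F x φ i (xp x j) = if i + j = c then 1 else 0 := by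
  rw [kap_xp x φ i hj, h.phi_xp]

theorem kap_zero_of_mem {n i : ℕ} (hn : c + 1 ≤ n + i) {v : J} (hv : v ∈ jpow F J n) :
    kap F x φ i v = 0 := by
  induction i generalizing n v with
  | zero => rw [kap_zero, h.zero_of_mem (by omega) hv, map_zero]
  | succ i ih =>
    rw [kap_succ]
    exact ih (n := n + 1) (by omega) (lmul_mem (by omega) x hv)

theorem kap_big {i : ℕ} (hi : c ≤ i) (v : J) : kap F x φ i v = 0 :=
  h.kap_zero_of_mem (n := 1) (by omega) (mem_one v)

end Cv

namespace Cv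

variable {x : J} {c : ℕ} {φ : J →ₗ[F] F} {M : Submodule F J} (h : Cv F x c φ M)
include h

theorem cp_xp {j : ℕ} (hj : 1 ≤ j) : cp F x c φ (xp x j) = xp x j := by
  rw [cp_apply]
  rcases Nat.lt_or_ge c j with h1 | h1
  · rw [h.xp_zero' h1]
    refine Finset.sum_eq_zero fun i _ => ?_
    rw [map_zero, zero_smul]
  · rw [Finset.sum_eq_single (c - j)]
    · rw [h.kap_xp' _ _ hj, if_pos (by omega), one_smul]
      congr 1
      omega
    · intro i _ hi
      rw [h.kap_xp' _ _ hj, if_neg (by omega), zero_smul]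
    · intro hi
      rw [Finset.mem_range] at hi
      omega

theorem cp_of_Cg {v : J} (hv : v ∈ Cg F x 1) : cp F x c φ v = v := by
  unfold Cg at hv
  induction hv using Submodule.span_induction with
  | mem v hv =>
    obtain ⟨i, hi, rfl⟩ := hv
    exact h.cp_xp hi
  | zero => rw [map_zero]
  | add v w _ _ hv hw => rw [map_add, hv, hw]
  | smul r v _ hv => rw [map_smul, hv]

theorem cp_of_M {m : J} (hm : m ∈ M) : cp F x c φ m = 0 := by
  rw [cp_apply]
  refine Finset.sum_eq_zero fun i _ => ?_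
  rw [(h.mem m).mp hm i, zero_smul]

theorem inter {v : J} (hv : v ∈ Cg F x 1) (hm : v ∈ M) : v = 0 := by
  rw [← h.cp_of_Cg hv, h.cp_of_M hm]

theorem kap_cp (i : ℕ) (v : J) : kap F x φ i (cp F x c φ v) = kap F x φ i v := by
  rw [cp_apply, map_sum]
  rcases Nat.lt_or_ge i c with h1 | h1
  · rw [Finset.sum_eq_single i]
    · rw [map_smul, h.kap_xp' _ _ (by omega), if_pos (by omega), smul_eq_mul, mul_one]
    · intro j hj hji
      rw [Finset.mem_range] at hj
      rw [map_smul, h.kap_xp' _ _ (by omega), if_neg (by omega), smul_zero]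
    · intro hi
      rw [Finset.mem_range] at hi
      omega
  · rw [h.kap_big h1 v]
    refine Finset.sum_eq_zero fun j hj => ?_
    rw [h.kap_big h1]

theorem pi_mem (v : J) : v - cp F x c φ v ∈ M := by
  rw [h.mem]
  intro i
  rw [map_sub, h.kap_cp, sub_self]

/-- every element is the sum of its `C`-part and an element of `M` -/
theorem exists_dec (v : J) : ∃ m ∈ M, v = cp F x c φ v + m :=
  ⟨_, h.pi_mem v, by abel⟩

theorem M_mul {m : J} (hm : m ∈ M) : x * m ∈ M := by
  rw [h.mem] at hm ⊢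
  intro i
  rw [← kap_succ]
  exact hm (i + 1)

/-- an element of `C` with `kap i v = 0` for `i ≥ k` is in `C_{≥ j}`, `j + k ≤ c + 1` -/
theorem Cg_of_kap {v : J} (hv : v ∈ Cg F x 1) {j k : ℕ} (hj : j + k ≤ c + 1)
    (hk : ∀ i, k ≤ i → kap F x φ i v = 0) : v ∈ Cg F x j := by
  rw [← h.cp_of_Cg hv]
  exact cp_mem_of hj hk

theorem kap_Cg {v : J} {i j : ℕ} (hj : 1 ≤ j) (hij : c < i + j) (hv : v ∈ Cg F x j) :
    kap F x φ i v = 0 := by
  unfold Cg at hv
  induction hv using Submodule.span_induction with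
  | mem v hv =>
    obtain ⟨k, hk, rfl⟩ := hv
    rw [h.kap_xp' _ _ (by omega), if_neg (by omega)]
  | zero => rw [map_zero]
  | add v w _ _ hv hw => rw [map_add, hv, hw, add_zero]
  | smul r v _ hv => rw [map_smul, hv, smul_zero]

/-- `L_x^i` commutes with `b` -/
theorem kap_b (i : ℕ) (v : J) :
    kap F x φ i ((x * x) * v) = φ ((x * x) * (((LinearMap.mulLeft F x) ^ i) v)) := by
  induction i generalizing v with
  | zero => simp [kap_zero]
  | succ i ih =>
    rw [kap_succ, ← comm1 F h.two h.jordan, ih, pow_succ, Module.End.mul_apply,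
      LinearMap.mulLeft_apply]

theorem kap_b_Cg {v : J} (hv : v ∈ Cg F x 1) (i : ℕ) :
    kap F x φ i ((x * x) * v) = kap F x φ (i + 2) v := by
  unfold Cg at hv
  induction hv using Submodule.span_induction with
  | mem v hv =>
    obtain ⟨k, hk, rfl⟩ := hv
    rw [b_xp F h.two h.jordan x hk rfl, h.kap_xp' _ _ (by omega), h.kap_xp' _ _ hk]
    congr 1
    rw [eq_iff_iff]
    omega
  | zero => rw [mul_zero, map_zero, map_zero]
  | add v w _ _ hv hw => rw [mul_add, map_add, hv, hw, map_add]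
  | smul r v _ hv => rw [mul_smul_comm, map_smul, hv, map_smul]

/-- products in `C` -/
theorem Cg_mul_Cg {v w : J} {i j k : ℕ} (hk : k ≤ i + j) (hi : 1 ≤ i) (hj : 1 ≤ j)
    (hv : v ∈ Cg F x i) (hw : w ∈ Cg F x j) : v * w ∈ Cg F x k := by
  unfold Cg at hv
  induction hv using Submodule.span_induction with
  | mem v hv =>
    obtain ⟨n, hn, rfl⟩ := hv
    unfold Cg at hw
    induction hw using Submodule.span_induction with
    | mem w hw =>
      obtain ⟨m, hm, rfl⟩ := hw
      rw [xp_mul F h.two h.jordan x (by omega) (by omega)]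
      exact xp_mem_Cg x (by omega)
    | zero => rw [mul_zero]; exact zero_mem _
    | add v w _ _ hv hw => rw [mul_add]; exact add_mem hv hw
    | smul r v _ hv => rw [mul_smul_comm]; exact Submodule.smul_mem _ _ hv
  | zero => rw [zero_mul]; exact zero_mem _
  | add v w _ _ hv hw => rw [add_mul]; exact add_mem hv hw
  | smul r v _ hv => rw [smul_mul_assoc]; exact Submodule.smul_mem _ _ hv

theorem b_Cg {v : J} {i j : ℕ} (hi : 1 ≤ i) (hj : j ≤ i + 2) (hv : v ∈ Cg F x i) :
    (x * x) * v ∈ Cg F x j :=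
  h.Cg_mul_Cg (i := 2) (j := i) (by omega) (by omega) hi (xp_mem_Cg x le_rfl) hv

theorem x_Cg {v : J} {i j : ℕ} (hi : 1 ≤ i) (hj : j ≤ i + 1) (hv : v ∈ Cg F x i) :
    x * v ∈ Cg F x j :=
  h.Cg_mul_Cg (i := 1) (j := i) (by omega) (by omega) hi (xp_mem_Cg x (i := 1) le_rfl) hv

theorem Cg_top : Cg F x (c + 1) = ⊥ := by
  rw [eq_bot_iff]
  refine Cg_le x fun i hi => ?_
  rw [h.xp_zero' hi]
  exact zero_mem _

theorem Cg_c {v : J} (hv : v ∈ Cg F x c) : v = φ v • xp x c := by
  have hv1 : v ∈ Cg F x 1 := Cg_anti x (by have := h.hc; omega) hv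
  have h1 : cp F x c φ v = kap F x φ 0 v • xp x c := by
    rw [cp_apply, Finset.sum_eq_single 0]
    · rw [Nat.sub_zero]
    · intro i hi hi0
      rw [h.kap_Cg (i := i) (j := c) (by have := h.hc; omega) (by omega) hv, zero_smul]
    · intro h0
      rw [Finset.mem_range] at h0
      have := h.hc
      omega
  rw [h.cp_of_Cg hv1, kap_zero] at h1
  exact h1

end Cv

/-- a functional with `φ (x^c) = 1`, `φ (x^i) = 0` for `i < c` -/
theorem exists_phi {x : J} {c : ℕ} (hc : 7 ≤ c) (bot : jpow F J (c + 1) = ⊥)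
    (hx : xp x c ≠ 0) : ∃ φ : J →ₗ[F] F, φ (xp x c) = 1 ∧ ∀ i, i < c → φ (xp x i) = 0 := by
  let Cr : ℕ → Submodule F J := fun k => Submodule.span F {v | ∃ i, k ≤ i ∧ i < c ∧ v = xp x i}
  have hsplit : ∀ k, 1 ≤ k → ∀ v ∈ Cr k, ∃ a : F, ∃ w ∈ Cr (k + 1), v = a • xp x k + w := by
    intro k hk v hv
    induction hv using Submodule.span_induction with
    | mem v hv =>
      obtain ⟨i, hi, hic, rfl⟩ := hv
      rcases eq_or_lt_of_le hi with rfl | hlt
      · exact ⟨1, 0, zero_mem _, by simp⟩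
      · exact ⟨0, xp x i, Submodule.subset_span ⟨i, hlt, hic, rfl⟩, by simp⟩
    | zero => exact ⟨0, 0, zero_mem _, by simp⟩
    | add v v' _ _ hv hv' =>
      obtain ⟨a, w, hw, rfl⟩ := hv
      obtain ⟨a', w', hw', rfl⟩ := hv'
      exact ⟨a + a', w + w', add_mem hw hw', by rw [add_smul]; abel⟩
    | smul r v _ hv =>
      obtain ⟨a, w, hw, rfl⟩ := hv
      exact ⟨r * a, r • w, Submodule.smul_mem _ _ hw, by rw [smul_add, mul_smul]⟩
  have hL : ∀ n j, 1 ≤ j → ((LinearMap.mulLeft F x) ^ n) (xp x j) = xp x (n + j) := by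
    intro n
    induction n with
    | zero => intro j _; simp
    | succ n ih =>
      intro j hj
      rw [pow_succ, Module.End.mul_apply, LinearMap.mulLeft_apply, ← xp_succ x hj,
        ih (j + 1) (by omega)]
      congr 1
      omega
  have hz : ∀ k, 1 ≤ k → k ≤ c → ∀ w ∈ Cr (k + 1),
      ((LinearMap.mulLeft F x) ^ (c - k)) w = 0 := by
    intro k hk hkc w hw
    induction hw using Submodule.span_induction with
    | mem v hv =>
      obtain ⟨i, hi, hic, rfl⟩ := hv
      rw [hL _ _ (by omega)]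
      exact xp_eq_zero bot (by omega)
    | zero => rw [map_zero]
    | add v v' _ _ hv hv' => rw [map_add, hv, hv', add_zero]
    | smul r v _ hv => rw [map_smul, hv, smul_zero]
  have hnot : ∀ k, 1 ≤ k → k ≤ c → xp x c ∈ Cr 1 → xp x c ∈ Cr k := by
    intro k hk
    induction k, hk using Nat.le_induction with
    | base => intro _ h1; exact h1
    | succ k hk ih =>
      intro hkc h1
      obtain ⟨a, w, hw, hw'⟩ := hsplit k hk _ (ih (by omega) h1)
      have h3 := congrArg (((LinearMap.mulLeft F x) ^ (c - k))) hw'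
      rw [map_add, map_smul, hL _ _ (by omega), hL _ _ hk] at h3
      have h4 : ((LinearMap.mulLeft F x) ^ (c - k)) w = 0 := hz k hk (by omega) w hw
      rw [h4, add_zero, xp_eq_zero bot (by omega), show c - k + k = c by omega] at h3
      have ha : a = 0 := by
        rcases smul_eq_zero.mp h3.symm with h5 | h5
        · exact h5
        · exact absurd h5 hx
      rw [hw', ha, zero_smul, zero_add]
      exact hw
  have hnot' : xp x c ∉ Cr 1 := by
    intro h1
    have h3 := hnot c (by omega) le_rfl h1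
    have h4 : Cr c = ⊥ := by
      rw [eq_bot_iff]
      simp only [Cr]
      rw [Submodule.span_le]
      rintro _ ⟨i, hi, hic, rfl⟩
      omega
    rw [h4, Submodule.mem_bot] at h3
    exact hx h3
  obtain ⟨g, hg, hg'⟩ := Submodule.exists_le_ker_of_notMem hnot'
  refine ⟨(g (xp x c))⁻¹ • g, ?_, ?_⟩
  · simp [hg]
  · intro i hi
    rcases Nat.eq_zero_or_pos i with rfl | hi0
    · rw [xp_zero, map_zero]
    · have : xp x i ∈ Cr 1 := Submodule.subset_span ⟨i, hi0, hi, rfl⟩
      have := hg' this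
      rw [LinearMap.mem_ker] at this
      simp [this]

theorem xp_eq (x : J) (n : ℕ) : JD.xp x n = xp x n := by
  induction n with
  | zero => rfl
  | succ n ih =>
    rcases Nat.eq_zero_or_pos n with rfl | hn
    · rfl
    · rw [JD.xp_succ x hn, xp_succ x hn, ih]

theorem exists_Cv {c : ℕ} {e : J} (h : Crit F J c e) (hc : 7 ≤ c) {χ : ℕ → J →ₗ[F] F}
    (hχ : Chr F J c χ) : ∃ (x : J) (φ : J →ₗ[F] F) (M : Submodule F J), Cv F x c φ M := by
  obtain ⟨x, hx1⟩ := hχ.one
  have hval : ∀ n, 1 ≤ n → n ≤ c → χ n (xp x n) = 1 := by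
    intro n hn hnc
    rw [← xp_eq, hχ.xp_val x hn hnc, hx1, one_pow]
  have hxc : xp x c ≠ 0 := by
    intro h0
    have := hval c (by omega) le_rfl
    rw [h0, map_zero] at this
    exact zero_ne_one this
  obtain ⟨φ, hφ1, hφ0⟩ := exists_phi (F := F) hc h.bot hxc
  have htopC : ∀ p ∈ jpow F J c, p = φ p • xp x c := by
    intro p hp
    rw [h.top] at hp
    obtain ⟨r, rfl⟩ := Submodule.mem_span_singleton.mp hp
    have m1 : xp x c ∈ jpow F J c := xp_mem x c
    rw [h.top] at m1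
    obtain ⟨s, hs⟩ := Submodule.mem_span_singleton.mp m1
    rw [← hs] at hφ1 ⊢
    rw [map_smul, smul_eq_mul] at hφ1
    rw [map_smul, smul_smul, smul_eq_mul, mul_assoc, mul_comm (φ e), hφ1, mul_one]
  have hiter : ∀ n k : ℕ, 1 ≤ k → n + k ≤ c → ∀ p ∈ jpow F J k,
      ((LinearMap.mulLeft F x) ^ n) p ∈ jpow F J (n + k) ∧
      χ (n + k) (((LinearMap.mulLeft F x) ^ n) p) = χ k p := by
    intro n
    induction n with
    | zero =>
      intro k _ _ p hp
      rw [Nat.zero_add, pow_zero]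
      exact ⟨hp, rfl⟩
    | succ n ih =>
      intro k hk hnk p hp
      obtain ⟨i1, i2⟩ := ih k hk (by omega) p hp
      rw [pow_succ', Module.End.mul_apply, LinearMap.mulLeft_apply]
      refine ⟨lmul_mem (by omega) x i1, ?_⟩
      have := hχ.mul 1 (n + k) le_rfl (by omega) (by omega) x (mem_one x) _ i1
      rw [show n + 1 + k = 1 + (n + k) by omega, this, hx1, one_mul, i2]
  have hkap : ∀ k, 1 ≤ k → k ≤ c → ∀ p ∈ jpow F J k, kap F x φ (c - k) p = χ k p := by
    intro k hk hkc p hp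
    obtain ⟨i1, i2⟩ := hiter (c - k) k hk (by omega) p hp
    rw [show c - k + k = c by omega] at i1 i2
    rw [kap, LinearMap.comp_apply, ← i2]
    conv_rhs => rw [htopC _ i1]
    rw [map_smul, hval c (by omega) le_rfl, smul_eq_mul, mul_one]
  refine ⟨x, φ, ⨅ i, LinearMap.ker (kap F x φ i), h.two, h.jordan, hc, h.bot, hφ1, hφ0, ?_, htopC,
    ?_⟩
  · intro m
    simp only [Submodule.mem_iInf, LinearMap.mem_ker]
  · intro i j hi hj hij a ha m hm hmj
    simp only [Submodule.mem_iInf, LinearMap.mem_ker] at hm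
    have m1 : a * m ∈ jpow F J (i + j) := mul_mem_jpow ha hmj
    rw [hkap (i + j) (by omega) hij _ m1, hχ.mul i j hi hj hij a ha m hmj, ← hkap j hj (by omega) m
      hmj, hm, mul_zero]

namespace Cv

variable {x : J} {c : ℕ} {φ : J →ₗ[F] F} {M : Submodule F J} (h : Cv F x c φ M)
include h

theorem cp_low {k : ℕ} (hk : 1 ≤ k) {p : J} (hp : p ∈ jpow F J k) : cp F x c φ p ∈ Cg F x k := by
  rcases Nat.lt_or_ge c k with hkc | hkc
  · rw [h.zero_of_mem hkc hp, map_zero]
    exact zero_mem _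
  · exact cp_mem_of (k := c + 1 - k) (by omega) fun i hi => h.kap_zero_of_mem (by omega) hp

theorem pi_low {k : ℕ} (hk : 1 ≤ k) {p : J} (hp : p ∈ jpow F J k) :
    p - cp F x c φ p ∈ jpow F J k :=
  sub_mem hp (Cg_le_jpow x k (h.cp_low hk hp))

/-- (ORD) -/
theorem cp_ord {i j : ℕ} (hi : 1 ≤ i) (hj : 1 ≤ j) {a m : J} (ha : a ∈ jpow F J i) (hm : m ∈ M)
    (hmj : m ∈ jpow F J j) : cp F x c φ (a * m) ∈ Cg F x (i + j + 1) := by
  have m1 : a * m ∈ jpow F J (i + j) := mul_mem_jpow ha hmj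
  rcases Nat.lt_or_ge c (i + j) with hkc | hkc
  · rw [h.zero_of_mem hkc m1, map_zero]
    exact zero_mem _
  · refine cp_mem_of (k := c - (i + j)) (by omega) fun k hk => ?_
    rcases Nat.eq_or_lt_of_le hk with rfl | hlt
    · exact h.ord i j hi hj hkc a ha m hm hmj
    · exact h.kap_zero_of_mem (by omega) m1

/-- decomposition of elements of `J^k` -/
theorem dec {k : ℕ} (hk : 1 ≤ k) {p : J} (hp : p ∈ jpow F J k) :
    ∃ s ∈ Cg F x k, ∃ m ∈ M, m ∈ jpow F J k ∧ p = s + m :=
  ⟨_, h.cp_low hk hp, _, h.pi_mem p, h.pi_low hk hp, by abel⟩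

/-- decomposition of products with a factor in `M` -/
theorem dec_ord {i j : ℕ} (hi : 1 ≤ i) (hj : 1 ≤ j) {a m : J} (ha : a ∈ jpow F J i) (hm : m ∈ M)
    (hmj : m ∈ jpow F J j) :
    ∃ s ∈ Cg F x (i + j + 1), ∃ m' ∈ M, m' ∈ jpow F J (i + j) ∧ a * m = s + m' :=
  ⟨_, h.cp_ord hi hj ha hm hmj, _, h.pi_mem _, h.pi_low (by omega) (mul_mem_jpow ha hmj), by abel⟩

end Cv

end L2
end JD
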