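import Pool.Agent.H33.JD.Cur
import Pool.Agent.H78.L2.SExt

set_option autoImplicit false
set_option linter.unusedSectionVars false
set_option linter.unusedVariables false

/-!
# JD: class at least 7, three generators: dimensions of `M ∩ J^k`, generators, the final lemma

`Cv.dim_M`, `Cv.dim_M2`, `Cv.dim_M3`; `Cv.exists_yz`; `Wf x M p q r t`: the filtration with weights `x^k : p k`, `M : q`, `M ∩ J² : r`,
`M ∩ J³ : t`; `Cv.fin_end`: contradiction if it is multiplicative.
-/

namespace JD
namespace L2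

universe u

open Module

variable {F : Type u} [Field F] {J : Type u} [NonUnitalNonAssocCommRing J] [Module F J]
  [IsScalarTower F J J] [SMulCommClass F J J]

/-- one more dimension -/
theorem finrank_sup_one [Module.Finite F J] {P : Submodule F J} {y : J} (hy : y ∉ P) :
    finrank F (P ⊔ Submodule.span F {y} : Submodule F J) = finrank F P + 1 := by
  have h1 := Submodule.finrank_sup_add_finrank_inf_eq P (Submodule.span F {y})
  have hy0 : y ≠ 0 := fun h => hy (h ▸ zero_mem _)
  rw [finrank_span_singleton hy0] at h1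
  have h3 : P ⊓ Submodule.span F {y} = ⊥ := by
    rw [eq_bot_iff]
    rintro a ⟨ha, hb⟩
    obtain ⟨r, rfl⟩ := Submodule.mem_span_singleton.mp hb
    rcases eq_or_ne r 0 with rfl | hr
    · rw [zero_smul]; exact zero_mem _
    · exfalso
      apply hy
      have := Submodule.smul_mem P r⁻¹ ha
      rwa [smul_smul, inv_mul_cancel₀ hr, one_smul] at this
  rw [h3, finrank_bot] at h1
  omega

theorem exists_one [Module.Finite F J] {P Q : Submodule F J} (hPQ : P ≤ Q)
    (h : finrank F Q = finrank F P + 1) :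
    ∃ w ∈ Q, w ∉ P ∧ ∀ v ∈ Q, ∃ a : F, ∃ p ∈ P, v = a • w + p := by
  have hne : ¬ Q ≤ P := by
    intro h'
    have := Submodule.finrank_mono h'
    omega
  obtain ⟨w, hw, hwP⟩ := Set.not_subset.mp hne
  refine ⟨w, hw, hwP, fun v hv => ?_⟩
  have hle : P ⊔ Submodule.span F {w} ≤ Q :=
    sup_le hPQ (by rwa [Submodule.span_singleton_le_iff_mem])
  have heq := Submodule.eq_of_le_of_finrank_eq hle (by rw [finrank_sup_one hwP, h])
  rw [← heq] at hv
  obtain ⟨p, hp, q, hq, rfl⟩ := Submodule.mem_sup.mp hv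
  obtain ⟨a, rfl⟩ := Submodule.mem_span_singleton.mp hq
  exact ⟨a, p, hp, add_comm _ _⟩

theorem exists_two [Module.Finite F J] {P Q : Submodule F J} (hPQ : P ≤ Q)
    (h : finrank F Q = finrank F P + 2) :
    ∃ y ∈ Q, ∃ z ∈ Q, (∀ a b : F, a • y + b • z ∈ P → a = 0 ∧ b = 0) ∧
      ∀ v ∈ Q, ∃ a b : F, ∃ p ∈ P, v = a • y + b • z + p := by
  have hne : ¬ Q ≤ P := by
    intro h'
    have := Submodule.finrank_mono h'
    omega
  obtain ⟨y, hy, hyP⟩ := Set.not_subset.mp hne
  have hle : P ⊔ Submodule.span F {y} ≤ Q :=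
    sup_le hPQ (by rwa [Submodule.span_singleton_le_iff_mem])
  obtain ⟨z, hz, hzP, hall⟩ := exists_one hle (by rw [finrank_sup_one hyP, h])
  refine ⟨y, hy, z, hz, fun a b hab => ?_, fun v hv => ?_⟩
  · have hb : b = 0 := by
      by_contra hb
      apply hzP
      have e : z = b⁻¹ • (a • y + b • z) + (-(b⁻¹ * a)) • y := by
        rw [smul_add, smul_smul, smul_smul, inv_mul_cancel₀ hb]
        module
      rw [e]
      exact Submodule.add_mem_sup (Submodule.smul_mem _ _ hab)
        (Submodule.smul_mem _ _ (Submodule.mem_span_singleton_self y))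
    rw [hb, zero_smul, add_zero] at hab
    refine ⟨?_, hb⟩
    by_contra ha
    apply hyP
    have := Submodule.smul_mem P a⁻¹ hab
    rwa [smul_smul, inv_mul_cancel₀ ha, one_smul] at this
  · obtain ⟨b, p, hp, rfl⟩ := hall v hv
    obtain ⟨p', hp', q, hq, rfl⟩ := Submodule.mem_sup.mp hp
    obtain ⟨a, rfl⟩ := Submodule.mem_span_singleton.mp hq
    exact ⟨a, b, p', hp', by abel⟩

namespace Cv

variable {x : J} {c : ℕ} {φ : J →ₗ[F] F} {M : Submodule F J} (h : Cv F x c φ M)
include h

theorem finrank_Cg [Module.Finite F J] : ∀ k : ℕ, k ≤ c → finrank F (Cg F x (c + 1 - k)) = k := by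
  intro k
  induction k with
  | zero =>
    intro _
    rw [Nat.sub_zero, h.Cg_top, finrank_bot]
  | succ k ih =>
    intro hk
    have h1 := ih (by omega)
    have hn : xp x (c + 1 - (k + 1)) ∉ Cg F x (c + 1 - k) := by
      intro hmem
      have h3 := h.kap_Cg (i := k) (j := c + 1 - k) (by omega) (by omega) hmem
      rw [h.kap_xp' _ _ (by omega), if_pos (by omega)] at h3
      exact one_ne_zero h3
    have h4 := finrank_sup_one hn
    rw [h1] at h4
    have h5 : Cg F x (c + 1 - (k + 1)) =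
        Cg F x (c + 1 - k) ⊔ Submodule.span F {xp x (c + 1 - (k + 1))} := by
      apply le_antisymm
      · refine Cg_le x fun i hi => ?_
        rcases Nat.eq_or_lt_of_le hi with rfl | hlt
        · exact Submodule.mem_sup_right (Submodule.mem_span_singleton_self _)
        · exact Submodule.mem_sup_left (xp_mem_Cg x (by omega))
      · refine sup_le (Cg_anti x (by omega)) ?_
        rw [Submodule.span_singleton_le_iff_mem]
        exact xp_mem_Cg x le_rfl
    rw [h5, h4]

theorem finrank_pow [Module.Finite F J] {k : ℕ} (hk : 1 ≤ k) (hkc : k ≤ c + 1) :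
    finrank F (jpow F J k) = (c + 1 - k) + finrank F (M ⊓ jpow F J k : Submodule F J) := by
  have h1 := Submodule.finrank_sup_add_finrank_inf_eq (Cg F x k) (M ⊓ jpow F J k)
  have h3 : Cg F x k ⊔ (M ⊓ jpow F J k) = jpow F J k := by
    apply le_antisymm
    · exact sup_le (Cg_le_jpow x k) inf_le_right
    · intro p hp
      obtain ⟨s, hs, m, hm, hmk, rfl⟩ := h.dec hk hp
      exact Submodule.add_mem_sup hs ⟨hm, hmk⟩
  have h4 : Cg F x k ⊓ (M ⊓ jpow F J k) = ⊥ := by
    rw [eq_bot_iff]
    rintro a ⟨ha, hb, -⟩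
    rw [Submodule.mem_bot]
    exact h.inter (Cg_anti x hk ha) hb
  have h5 := h.finrank_Cg (c + 1 - k) (by omega)
  rw [show c + 1 - (c + 1 - k) = k by omega] at h5
  rw [h3, h4, finrank_bot, h5] at h1
  omega

theorem dim_M [Module.Finite F J] : finrank F J = c + finrank F M := by
  have := h.finrank_pow (k := 1) le_rfl (by omega)
  rw [jpow_one, inf_top_eq, finrank_top] at this
  omega

theorem dim_M2 [Module.Finite F J] (hn : ngen F J = 3) :
    finrank F M = finrank F (M ⊓ jpow F J 2 : Submodule F J) + 2 := by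
  have h1 := h.finrank_pow (k := 2) (by omega) (by have := h.hc; omega)
  have h3 := Submodule.finrank_quotient_add_finrank (jpow F J 2)
  have h4 := h.dim_M
  have h5 := h.hc
  unfold ngen at hn
  omega

theorem dim_M3 [Module.Finite F J] (hd2 : 2 ≤ dlay F J 2) :
    finrank F (M ⊓ jpow F J 3 : Submodule F J) < finrank F (M ⊓ jpow F J 2 : Submodule F J) := by
  have h5 := h.hc
  have h1 := h.finrank_pow (k := 2) (by omega) (by omega)
  have h3 := h.finrank_pow (k := 3) (by omega) (by omega)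
  unfold dlay at hd2
  rw [show (2 + 1 : ℕ) = 3 from rfl] at hd2
  omega

theorem exists_yz [Module.Finite F J] (hn : ngen F J = 3) :
    ∃ y ∈ M, ∃ z ∈ M, (∀ a b : F, a • y + b • z ∈ jpow F J 2 → a = 0 ∧ b = 0) ∧
      (∀ v ∈ M, ∃ a b : F, ∃ p ∈ M, p ∈ jpow F J 2 ∧ v = a • y + b • z + p) ∧
      Submodule.span F (Set.range ![x, y, z]) ⊔ jpow F J 2 = ⊤ := by
  obtain ⟨y, hy, z, hz, h1, h3⟩ := exists_two (inf_le_left : M ⊓ jpow F J 2 ≤ M) (h.dim_M2 hn)
  refine ⟨y, hy, z, hz, fun a b hab => h1 a b ⟨?_, hab⟩, fun v hv => ?_, ?_⟩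
  · exact add_mem (Submodule.smul_mem _ _ hy) (Submodule.smul_mem _ _ hz)
  · obtain ⟨a, b, p, ⟨hp, hp2⟩, rfl⟩ := h3 v hv
    exact ⟨a, b, p, hp, hp2, rfl⟩
  · rw [eq_top_iff]
    intro v _
    obtain ⟨m, hm, hv⟩ := h.exists_dec v
    obtain ⟨a, b, p, ⟨hp, hp2⟩, hm'⟩ := h3 m hm
    have hx : ∀ i, ![x, y, z] i ∈ Submodule.span F (Set.range ![x, y, z]) ⊔ jpow F J 2 :=
      fun i => Submodule.mem_sup_left (Submodule.subset_span ⟨i, rfl⟩)
    have hC : Cg F x 1 ≤ Submodule.span F (Set.range ![x, y, z]) ⊔ jpow F J 2 := by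
      refine Cg_le x fun i hi => ?_
      rcases Nat.eq_or_lt_of_le hi with rfl | hlt
      · exact hx 0
      · exact Submodule.mem_sup_right (jpow_anti hlt (xp_mem x i))
    rw [hv, hm']
    refine add_mem (hC (cp_mem x c φ v)) (add_mem (add_mem (Submodule.smul_mem _ _ (hx 1))
      (Submodule.smul_mem _ _ (hx 2))) (Submodule.mem_sup_right hp2))

end Cv

/-- the subspaces of the filtration -/
noncomputable def WfG (F : Type u) [Field F] {J : Type u} [NonUnitalNonAssocCommRing J] [Module F J]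
    [IsScalarTower F J J] [SMulCommClass F J J] (x : J) (M : Submodule F J) :
    ℕ ⊕ Fin 3 → Submodule F J
  | Sum.inl k => Cg F x k
  | Sum.inr i => ![M, M ⊓ jpow F J 2, M ⊓ jpow F J 3] i

/-- the weights -/
def Wfw (p q r t : ℕ) : ℕ ⊕ Fin 3 → ℕ
  | Sum.inl k => p * k
  | Sum.inr i => ![q, r, t] i

/-- the filtration with weights `x^k : p k`, `M : q`, `M ∩ J² : r`, `M ∩ J³ : t` -/
noncomputable def Wf (F : Type u) [Field F] {J : Type u} [NonUnitalNonAssocCommRing J] [Module F J]
    [IsScalarTower F J J] [SMulCommClass F J J] (x : J) (M : Submodule F J) (p q r t : ℕ) (s : ℕ) :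
    Submodule F J := Fam (WfG F x M) (Wfw p q r t) s

section Wf

variable {x : J} {M : Submodule F J} {p q r t s : ℕ}

theorem Wf_C (k : ℕ) (hs : s ≤ p * k) {v : J} (hv : v ∈ Cg F x k) : v ∈ Wf F x M p q r t s :=
  mem_Fam (G := WfG F x M) (w := Wfw p q r t) (Sum.inl k) hs hv

theorem Wf_xp (k : ℕ) (hs : s ≤ p * k) : xp x k ∈ Wf F x M p q r t s :=
  Wf_C k hs (xp_mem_Cg x le_rfl)

theorem Wf_M (hs : s ≤ q) {v : J} (hv : v ∈ M) : v ∈ Wf F x M p q r t s :=
  mem_Fam (G := WfG F x M) (w := Wfw p q r t) (Sum.inr 0) hs hv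

theorem Wf_M2 (hs : s ≤ r) {v : J} (hv : v ∈ M) (hv2 : v ∈ jpow F J 2) : v ∈ Wf F x M p q r t s :=
  mem_Fam (G := WfG F x M) (w := Wfw p q r t) (Sum.inr 1) hs
    (show v ∈ M ⊓ jpow F J 2 from ⟨hv, hv2⟩)

theorem Wf_M3 (hs : s ≤ t) {v : J} (hv : v ∈ M) (hv3 : v ∈ jpow F J 3) : v ∈ Wf F x M p q r t s :=
  mem_Fam (G := WfG F x M) (w := Wfw p q r t) (Sum.inr 2) hs
    (show v ∈ M ⊓ jpow F J 3 from ⟨hv, hv3⟩)

theorem Wf_le {T : Submodule F J} (hC : ∀ k, s ≤ p * k → Cg F x k ≤ T) (hM : s ≤ q → M ≤ T)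
    (hM2 : s ≤ r → M ⊓ jpow F J 2 ≤ T) (hM3 : s ≤ t → M ⊓ jpow F J 3 ≤ T) :
    Wf F x M p q r t s ≤ T := by
  refine Fam_le fun k hk => ?_
  rcases k with k | i
  · exact hC k hk
  · fin_cases i
    · exact hM hk
    · exact hM2 hk
    · exact hM3 hk

end Wf

namespace Cv

variable {x : J} {c : ℕ} {φ : J →ₗ[F] F} {M : Submodule F J} (h : Cv F x c φ M)
include h

/-- the filtration is multiplicative if the products of the pieces are in the right place -/
theorem filt_Wf {y z : J} (hy : y ∈ M) (hz : z ∈ M) {p q r t : ℕ}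
    (hC1 : ∀ k, 1 ≤ k → ∀ m ∈ M, xp x k * m ∈ Wf F x M p q r t (p * k + q))
    (hC2 : ∀ k, 1 ≤ k → ∀ m ∈ M, m ∈ jpow F J 2 → xp x k * m ∈ Wf F x M p q r t (p * k + r))
    (hC3 : ∀ k, 1 ≤ k → ∀ m ∈ M, m ∈ jpow F J 3 → xp x k * m ∈ Wf F x M p q r t (p * k + t))
    (h11 : ∀ m ∈ M, ∀ n ∈ M, m * n ∈ Wf F x M p q r t (q + q))
    (h12 : ∀ m ∈ M, ∀ n ∈ M, n ∈ jpow F J 2 → m * n ∈ Wf F x M p q r t (q + r))
    (h13 : ∀ m ∈ M, ∀ n ∈ M, n ∈ jpow F J 3 → m * n ∈ Wf F x M p q r t (q + t))
    (h22 : ∀ m ∈ M, m ∈ jpow F J 2 → ∀ n ∈ M, n ∈ jpow F J 2 → m * n ∈ Wf F x M p q r t (r + r))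
    (h23 : ∀ m ∈ M, m ∈ jpow F J 2 → ∀ n ∈ M, n ∈ jpow F J 3 → m * n ∈ Wf F x M p q r t (r + t))
    (h33 : ∀ m ∈ M, m ∈ jpow F J 3 → ∀ n ∈ M, n ∈ jpow F J 3 → m * n ∈ Wf F x M p q r t (t + t)) :
    Filt F ![x, y, z] ![p, q, q] (Wf F x M p q r t) := by
  -- `C_(≥ k) m`
  have hCg : ∀ (k s s' : ℕ) (m : J), (∀ i, 1 ≤ i → xp x i * m ∈ Wf F x M p q r t (p * i + s)) →
      p * k + s = s' → ∀ v ∈ Cg F x k, v * m ∈ Wf F x M p q r t s' := by
    rintro k s s' m hm rfl v hv
    have hle : Cg F x k ≤ (Wf F x M p q r t (p * k + s)).comap (LinearMap.mulRight F m) := by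
      refine Cg_le x fun i hi => ?_
      rw [Submodule.mem_comap, LinearMap.mulRight_apply]
      rcases Nat.eq_zero_or_pos i with rfl | hi0
      · rw [xp_zero, zero_mul]; exact zero_mem _
      · refine Fam_anti _ _ ?_ (hm i hi0)
        have := Nat.mul_le_mul_left p hi
        omega
    exact hle hv
  have hCC : ∀ (k l s' : ℕ), s' ≤ p * k + p * l → ∀ v ∈ Cg F x k, ∀ w ∈ Cg F x l,
      v * w ∈ Wf F x M p q r t s' := by
    intro k l s' hs v hv w hw
    have aux : ∀ k, ∀ v ∈ Cg F x k, v ∈ Cg F x (max k 1) := by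
      intro k v hv
      rcases Nat.eq_zero_or_pos k with rfl | hk
      · rw [Cg_zero] at hv; exact hv
      · rwa [max_eq_left hk]
    refine Wf_C (max k 1 + max l 1) ?_ (h.Cg_mul_Cg le_rfl (le_max_right _ _) (le_max_right _ _)
      (aux k v hv) (aux l w hw))
    refine hs.trans ?_
    rw [← Nat.mul_add]
    exact Nat.mul_le_mul_left p (add_le_add (le_max_left _ _) (le_max_left _ _))
  refine filt_Fam _ _ ?_ ?_
  · intro i
    fin_cases i
    · exact Wf_xp (F := F) (M := M) (q := q) (r := r) (t := t) 1 (Nat.mul_one p).ge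
    · exact Wf_M le_rfl hy
    · exact Wf_M le_rfl hz
  · rintro (k | i) (l | j) v hv w hw
    · exact hCC k l _ le_rfl v hv w hw
    · fin_cases j
      · exact hCg k q _ w (fun i hi => hC1 i hi w hw) rfl v hv
      · exact hCg k r _ w (fun i hi => hC2 i hi w hw.1 hw.2) rfl v hv
      · exact hCg k t _ w (fun i hi => hC3 i hi w hw.1 hw.2) rfl v hv
    · rw [mul_comm]
      fin_cases i
      · exact hCg l q _ v (fun i hi => hC1 i hi v hv) (Nat.add_comm _ _) w hw
      · exact hCg l r _ v (fun i hi => hC2 i hi v hv.1 hv.2) (Nat.add_comm _ _) w hw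
      · exact hCg l t _ v (fun i hi => hC3 i hi v hv.1 hv.2) (Nat.add_comm _ _) w hw
    · fin_cases i
      · fin_cases j
        · exact h11 v hv w hw
        · exact h12 v hv w hw.1 hw.2
        · exact h13 v hv w hw.1 hw.2
      · fin_cases j
        · rw [mul_comm]
          have := h12 w hw v hv.1 hv.2
          rwa [Nat.add_comm] at this
        · exact h22 v hv.1 hv.2 w hw.1 hw.2
        · exact h23 v hv.1 hv.2 w hw.1 hw.2
      · fin_cases j
        · rw [mul_comm]
          have := h13 w hw v hv.1 hv.2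
          rwa [Nat.add_comm] at this
        · rw [mul_comm]
          have := h23 w hw.1 hw.2 v hv.1 hv.2
          rwa [Nat.add_comm] at this
        · exact h33 v hv.1 hv.2 w hw.1 hw.2

/-- the final contradiction -/
theorem fin_end {e : J} (hcr : Crit F J c e) {y z : J} (hy : y ∈ M) (hz : z ∈ M)
    (hyz : ∀ a b : F, a • y + b • z ∈ jpow F J 2 → a = 0 ∧ b = 0)
    (hspan : Submodule.span F (Set.range ![x, y, z]) ⊔ jpow F J 2 = ⊤) {p q r t : ℕ}
    (hp : 1 ≤ p) (hpq : p < q) (hq : q ≤ p * c) (hr : r ≤ p * c) (ht : t ≤ p * c)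
    (hL : p * c < 4 * p + 2 * q) (hL2 : p * c < 2 * p + 3 * q) (hL3 : p * c < 7 * p + q)
    (hC1 : ∀ k, 1 ≤ k → ∀ m ∈ M, xp x k * m ∈ Wf F x M p q r t (p * k + q))
    (hC2 : ∀ k, 1 ≤ k → ∀ m ∈ M, m ∈ jpow F J 2 → xp x k * m ∈ Wf F x M p q r t (p * k + r))
    (hC3 : ∀ k, 1 ≤ k → ∀ m ∈ M, m ∈ jpow F J 3 → xp x k * m ∈ Wf F x M p q r t (p * k + t))
    (h11 : ∀ m ∈ M, ∀ n ∈ M, m * n ∈ Wf F x M p q r t (q + q))
    (h12 : ∀ m ∈ M, ∀ n ∈ M, n ∈ jpow F J 2 → m * n ∈ Wf F x M p q r t (q + r))
    (h13 : ∀ m ∈ M, ∀ n ∈ M, n ∈ jpow F J 3 → m * n ∈ Wf F x M p q r t (q + t))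
    (h22 : ∀ m ∈ M, m ∈ jpow F J 2 → ∀ n ∈ M, n ∈ jpow F J 2 → m * n ∈ Wf F x M p q r t (r + r))
    (h23 : ∀ m ∈ M, m ∈ jpow F J 2 → ∀ n ∈ M, n ∈ jpow F J 3 → m * n ∈ Wf F x M p q r t (r + t))
    (h33 : ∀ m ∈ M, m ∈ jpow F J 3 → ∀ n ∈ M, n ∈ jpow F J 3 → m * n ∈ Wf F x M p q r t (t + t)) :
    False := by
  have hfin := hcr.fin
  have hc := h.hc
  have hΦ := h.filt_Wf (y := y) (z := z) hy hz hC1 hC2 hC3 h11 h12 h13 h22 h23 h33
  have hN : Wf F x M p q r t (p * c + 1) = ⊥ := by
    rw [eq_bot_iff]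
    refine Wf_le (fun k hk => ?_) (fun hk => by omega) (fun hk => by omega) (fun hk => by omega)
    have : c + 1 ≤ k := by
      by_contra hlt
      have := Nat.mul_le_mul_left p (by omega : k ≤ c)
      omega
    rw [← h.Cg_top]
    exact Cg_anti x this
  have F1 : ∀ v ∈ Wf F x M p q r t (p + 1), kap F x φ (c - 1) v = 0 := by
    intro v hv
    have hle : Wf F x M p q r t (p + 1) ≤ LinearMap.ker (kap F x φ (c - 1)) := by
      refine Wf_le (fun k hk v hv => ?_) (fun _ v hv => (h.mem v).mp hv _)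
        (fun _ v hv => (h.mem v).mp hv.1 _) (fun _ v hv => (h.mem v).mp hv.1 _)
      have : 2 ≤ k := by
        by_contra hlt
        have := Nat.mul_le_mul_left p (by omega : k ≤ 1)
        omega
      exact h.kap_Cg (by omega) (by omega) hv
    exact hle hv
  have F2 : ∀ v ∈ Wf F x M p q r t (2 * p + 1), kap F x φ (c - 2) v = 0 := by
    intro v hv
    have hle : Wf F x M p q r t (2 * p + 1) ≤ LinearMap.ker (kap F x φ (c - 2)) := by
      refine Wf_le (fun k hk v hv => ?_) (fun _ v hv => (h.mem v).mp hv _)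
        (fun _ v hv => (h.mem v).mp hv.1 _) (fun _ v hv => (h.mem v).mp hv.1 _)
      have : 3 ≤ k := by
        by_contra hlt
        have := Nat.mul_le_mul_left p (by omega : k ≤ 2)
        omega
      exact h.kap_Cg (by omega) (by omega) hv
    exact hle hv
  have F3 : Wf F x M p q r t (q + 1) ≤ jpow F J 2 := by
    refine Wf_le (fun k hk => ?_) (fun hk => by omega) (fun _ v hv => hv.2)
      (fun _ v hv => jpow_anti (by omega) hv.2)
    have : 2 ≤ k := by
      by_contra hlt
      have := Nat.mul_le_mul_left p (by omega : k ≤ 1)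
      omega
    exact (Cg_le_jpow x k).trans (jpow_anti this)
  -- the S-system
  obtain ⟨S, hS, hSspan⟩ := exists_SSysExt h.two h.jordan (N := c + 1) h.bot ![x, y, z] ![p, q, q]
    (Wf F x M p q r t) hΦ (by
      intro w hw hex
      rw [eq_bot_iff, ← hN]
      refine hΦ.anti _ _ ?_
      have hle : ∀ w : List (Fin 3), p * w.length ≤ wt ![p, q, q] w := by
        intro w
        induction w with
        | nil => simp
        | cons i w ih =>
          rw [SM.wt_cons, List.length_cons, Nat.mul_add, Nat.mul_one]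
          have : p ≤ ![p, q, q] i := by
            fin_cases i
            · exact le_rfl
            · exact hpq.le
            · exact hpq.le
          omega
      have hle2 : ∀ w : List (Fin 3), (∃ i ∈ w, i ≠ 0) → p * w.length + q ≤ wt ![p, q, q] w + p := by
        intro w
        induction w with
        | nil => rintro ⟨i, hi, -⟩; simp at hi
        | cons i w ih =>
          intro hex
          rw [SM.wt_cons, List.length_cons, Nat.mul_add, Nat.mul_one]
          by_cases hi : i = 0
          · subst hi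
            obtain ⟨j, hj, hj0⟩ := hex
            have := ih ⟨j, (List.mem_cons.mp hj).resolve_left hj0, hj0⟩
            have e : ![p, q, q] (0 : Fin 3) = p := rfl
            omega
          · have e : ![p, q, q] i = q := by
              fin_cases i
              · exact absurd rfl hi
              · rfl
              · rfl
            have := hle w
            omega
      have h1 := hle2 w hex
      have h3 := Nat.mul_le_mul_left p hw
      omega)
  have hnil : IsNilpotentAlg F J := ⟨c + 1, by omega, h.bot⟩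
  have hSspan := hSspan (gen_of_span hnil ![x, y, z] hspan)
  refine finish ![p, q, q] hcr hS hSspan hΦ (N := p * c) (m := p) (fun i => by
    fin_cases i
    · exact le_rfl
    · exact hpq.le
    · exact hpq.le) hN ?_
  intro E _ _ P s hs1 hs hr'
  have a0 : ![p, q, q] (0 : Fin 3) = p := rfl
  have a1 : ![p, q, q] (1 : Fin 3) = q := rfl
  have a2 : ![p, q, q] (2 : Fin 3) = q := rfl
  rw [a0, a1, a2] at hs
  have hx0 : ![x, y, z] (0 : Fin 3) = x := rfl
  have hx1 : ![x, y, z] (1 : Fin 3) = y := rfl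
  have hx2 : ![x, y, z] (2 : Fin 3) = z := rfl
  refine step2 P ![p, q, q] h.two hS hΦ (by omega) ?_ ?_ hr'
  · intro i j k
    have hge : ∀ i : Fin 3, p ≤ ![p, q, q] i := by
      intro i
      fin_cases i
      · exact le_rfl
      · exact hpq.le
      · exact hpq.le
    have := hge i
    have := hge j
    have := hge k
    omega
  · intro c1 c2 hmem
    have hge : ∀ i : Fin 3, i ≠ 0 → ![p, q, q] i = q := by
      intro i hi
      fin_cases i
      · exact absurd rfl hi
      · rfl
      · rfl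
    -- only `x`, `y`, `z`, `x x` can occur
    have e2 : (∑ i, ∑ j, (if i ≤ j ∧ ![p, q, q] i + ![p, q, q] j = s then c2 i j else 0) •
        (![x, y, z] i * ![x, y, z] j)) = (if p + p = s then c2 0 0 else 0) • (x * x) := by
      rw [Finset.sum_eq_single 0]
      · rw [Finset.sum_eq_single 0]
        · rw [hx0, a0]
          congr 1
          by_cases hps : p + p = s
          · rw [if_pos ⟨le_rfl, hps⟩, if_pos hps]
          · rw [if_neg (fun h' => hps h'.2), if_neg hps]
        · intro j _ hj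
          rw [if_neg, zero_smul]
          rintro ⟨-, h'⟩
          rw [a0, hge j hj] at h'
          omega
        · intro h'; exact absurd (Finset.mem_univ _) h'
      · intro i _ hi
        refine Finset.sum_eq_zero fun j _ => ?_
        rw [if_neg, zero_smul]
        rintro ⟨hij, h'⟩
        have hj : j ≠ 0 := by
          rintro rfl
          exact hi (le_antisymm hij (Fin.zero_le _))
        rw [hge i hi, hge j hj] at h'
        omega
      · intro h'; exact absurd (Finset.mem_univ _) h'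
    rw [e2, Fin.sum_univ_three, hx0, hx1, hx2, a0, a1, a2] at hmem
    have kx : kap F x φ (c - 1) x = 1 := by
      have := h.kap_xp' (c - 1) 1 le_rfl
      rw [xp_one, if_pos (by omega)] at this
      exact this
    have kM : ∀ i, ∀ v ∈ M, kap F x φ i v = 0 := fun i v hv => (h.mem v).mp hv i
    have kxx1 : kap F x φ (c - 1) (x * x) = 0 := by
      have := h.kap_xp' (c - 1) 2 (by omega)
      rw [xp_two, if_neg (by omega)] at this
      exact this
    have kxx2 : kap F x φ (c - 2) (x * x) = 1 := by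
      have := h.kap_xp' (c - 2) 2 (by omega)
      rw [xp_two, if_pos (by omega)] at this
      exact this
    have kx2 : kap F x φ (c - 2) x = 0 := by
      have := h.kap_xp' (c - 2) 1 le_rfl
      rw [xp_one, if_neg (by omega)] at this
      exact this
    have cA : p = s → c1 0 = 0 := by
      intro hps
      subst hps
      have := F1 _ hmem
      rw [if_pos rfl, if_neg (by omega), if_neg (by omega), if_neg (by omega)] at this
      simp only [map_smul, kx, zero_smul, add_zero, smul_eq_mul, mul_one] at this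
      exact this
    have cB : q = s → c1 1 = 0 ∧ c1 2 = 0 := by
      intro hqs
      subst hqs
      have := F3 hmem
      rw [if_neg (by omega : ¬ p = q), if_pos rfl, if_pos rfl, zero_smul, zero_add] at this
      refine hyz _ _ ?_
      have m2 : (if p + p = q then c2 0 0 else 0) • (x * x) ∈ jpow F J 2 :=
        Submodule.smul_mem _ _ (mul_mem_two x x)
      have := sub_mem this m2
      rwa [add_sub_cancel_right] at this
    have cC : p + p = s → c2 0 0 = 0 := by
      intro hps
      have hs2 : s + 1 = 2 * p + 1 := by omega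
      rw [hs2] at hmem
      have h1 := F2 _ hmem
      rw [map_add, map_add, map_add, map_smul, map_smul, map_smul, map_smul, kx2, kM _ y hy,
        kM _ z hz, kxx2, if_pos hps, smul_zero, smul_zero, smul_zero, zero_add, zero_add,
        smul_eq_mul, mul_one] at h1
      simpa using h1
    refine ⟨fun i hi => ?_, fun i j hij hs' => Or.inl ?_⟩
    · fin_cases i
      · exact cA hi
      · exact (cB hi).1
      · exact (cB hi).2
    · by_cases hi : i = 0
      · subst hi
        by_cases hj : j = 0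
        · subst hj
          exact cC hs'
        · exfalso
          rw [a0, hge j hj] at hs'
          omega
      · exfalso
        have hj : j ≠ 0 := by
          rintro rfl
          exact hi (le_antisymm hij (Fin.zero_le _))
        rw [hge i hi, hge j hj] at hs'
        omega

end Cv

end L2
end JD
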