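import Pool.Agent.H33.JD.Sev
import Pool.Agent.H78.C7.Main
import Pool.Agent.H33.JD.CaseIII
import Pool.Agent.H78.L2.Main

set_option autoImplicit false
set_option linter.unusedSectionVars false
set_option linter.unusedVariables false

/-!
# JD: three generators, class at least 7
-/

namespace JD

universe u

open Module L2

variable {K : Type u} [Field K] [IsAlgClosed K] {J : Type u} [NonUnitalNonAssocCommRing J]
  [Module K J] [IsScalarTower K J J] [SMulCommClass K J J] {c : ℕ} {e : J}

theorem cvI_of_zero {x : J} {φ : J →ₗ[K] K} {M : Submodule K J} [Module.Finite K J]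
    (h : Cv K x c φ M) (h3 : finrank K (M ⊓ jpow K J 3 : Submodule K J) = 0) :
    CvI K x c φ M := by
  refine ⟨h, ?_⟩
  intro m hm hm3
  have h0 : M ⊓ jpow K J 3 = ⊥ := Submodule.finrank_eq_zero.mp h3
  have : m ∈ M ⊓ jpow K J 3 := ⟨hm, hm3⟩
  rwa [h0, Submodule.mem_bot] at this

theorem crit_n3_c7_main (h : Crit K J 7 e) (hn : ngen K J = 3) : False := by
  haveI := h.fin
  have hd2 := crit_dlay_two h hn (by omega)
  obtain ⟨χ, hχ⟩ := crit_chr h hn (by omega) hd2
  obtain ⟨x, φ, M, hv⟩ := exists_Cv h (by omega) hχ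
  have h1 := hv.dim_M
  have h2 := hv.dim_M2 hn
  have h3 := hv.dim_M3 hd2
  have h4 := h.dim
  by_cases h0 : finrank K (M ⊓ jpow K J 3 : Submodule K J) = 0
  · exact caseI7 h hn (cvI_of_zero hv h0)
  · have e2 : finrank K (M ⊓ jpow K J 2 : Submodule K J) = 2 := by omega
    have e3 : finrank K (M ⊓ jpow K J 3 : Submodule K J) = 1 := by omega
    exact caseII h hn hv e2 e3 (caseIII hv e2 e3)

theorem crit_n3_c8_main (h : Crit K J 8 e) (hn : ngen K J = 3) : False := by
  haveI := h.fin
  have hd2 := crit_dlay_two h hn (by omega)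
  obtain ⟨χ, hχ⟩ := crit_chr h hn (by omega) hd2
  obtain ⟨x, φ, M, hv⟩ := exists_Cv h (by omega) hχ
  have h1 := hv.dim_M
  have h2 := hv.dim_M2 hn
  have h3 := hv.dim_M3 hd2
  have h4 := h.dim
  have h0 : finrank K (M ⊓ jpow K J 3 : Submodule K J) = 0 := by omega
  exact caseI8 h hn (cvI_of_zero hv h0) (by omega)

theorem crit_n3_c9_main (h : Crit K J c e) (hn : ngen K J = 3) (hc : 9 ≤ c) : False := by
  exact crit_c9 h hn hc (crit_dlay_two h hn (by omega))

end JD
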