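import Pool.Agent.H33.JD.Step
import Pool.Agent.H78.L2.Fin
import Pool.Agent.H74.JD.SMem

set_option autoImplicit false
set_option linter.unusedSectionVars false
set_option linter.unusedVariables false

/-!
# JD: class at least 7, three generators: existence of the character of level `c`

`crit_count`: `sum_{2 ≤ i < c} d_i ≤ 7`. `exists_chr7`: class 7. `crit_chr`: all classes at least 7. `c9`: classes at least 9 are impossible.
-/

namespace JD

universe u

open Module

section

variable {F : Type u} [Field F] {J : Type u} [NonUnitalNonAssocCommRing J] [Module F J]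
  [IsScalarTower F J J] [SMulCommClass F J J]

theorem crit_count {c : ℕ} {e : J} (h : Crit F J c e) (hn : ngen F J = 3) (hc : 2 ≤ c) :
    ∑ i ∈ Finset.Ico 2 c, dlay F J i ≤ 7 := by
  have hfin := h.fin
  have key : ∀ n, 2 ≤ n → finrank F (jpow F J 2) =
      ∑ i ∈ Finset.Ico 2 n, dlay F J i + finrank F (jpow F J n) := by
    intro n hn
    induction n, hn using Nat.le_induction with
    | base => simp
    | succ n hn ih =>
      rw [Finset.sum_Ico_succ_top hn, ih]
      have := Submodule.finrank_mono (jpow_succ_le (F := F) (J := J) n)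
      unfold dlay
      omega
  have h1 := key c hc
  rw [h.top, finrank_span_singleton h.ne] at h1
  have h3 := Submodule.finrank_quotient_add_finrank (jpow F J 2)
  have h4 := h.dim
  unfold ngen at hn
  omega

/-- the values of a character on an S-system -/
theorem Chr.S_val {m : ℕ} {χ : ℕ → J →ₗ[F] F} (hχ : Chr F J m χ) (h2 : (2 : F) ≠ 0)
    {x : Fin 3 → J} {S : List (Fin 3) → J} (hS : SSys F x S) :
    ∀ n, 1 ≤ n → n ≤ m → ∀ w : List (Fin 3), w.length = n →
      χ n (S w) = (w.map fun i => χ 1 (x i)).prod := by
  have hmem : ∀ w : List (Fin 3), w ≠ [] → S w ∈ jpow F J w.length := by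
    intro w hw
    have := hS.mem_filt h2 (filt_jpow (F := F) x) w hw
    rwa [wt_one] at this
  intro n
  induction n using Nat.strong_induction_on with
  | _ n ih =>
    intro hn hm w hw
    rcases Nat.lt_or_ge n 2 with h | h
    · obtain rfl : n = 1 := by omega
      obtain ⟨i, rfl⟩ := List.length_eq_one_iff.mp hw
      rw [hS.single]
      simp
    · have key := alt_mem h2 (⊥ : Submodule F F) (fun _ => 1) n n h
        (fun w => χ n (S w) - (w.map fun i => χ 1 (x i)).prod) ?_ ?_ w hw (by rw [wt_one, hw])
      · rw [Submodule.mem_bot, sub_eq_zero] at key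
        exact key
      · intro w
        simp only [hS.rev, ((List.reverse_perm w).map fun i => χ 1 (x i)).prod_eq]
      · intro v w hv hw' hl _
        have hv1 := List.length_pos_of_ne_nil hv
        have hw1 := List.length_pos_of_ne_nil hw'
        have e1 := congrArg (χ n) (hS.mul v w hv hw')
        rw [map_add, map_add, map_add, map_smul, smul_eq_mul] at e1
        have e3 : χ n (S v * S w) = χ v.length (S v) * χ w.length (S w) := by
          have := hχ.mul v.length w.length hv1 hw1 (by omega) _ (hmem v hv) _ (hmem w hw')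
          rwa [hl] at this
        rw [e3, ih v.length (by omega) hv1 (by omega) v rfl,
          ih w.length (by omega) hw1 (by omega) w rfl] at e1
        rw [Submodule.mem_bot]
        have p1 : ∀ v : List (Fin 3), (v.reverse.map fun i => χ 1 (x i)).prod =
            (v.map fun i => χ 1 (x i)).prod := fun v =>
          ((List.reverse_perm v).map fun i => χ 1 (x i)).prod_eq
        simp only [List.map_append, List.prod_append, p1]
        linear_combination -e1

/-- rotation of the words of length 7 -/
theorem sev_rot (h2 : (2 : F) ≠ 0) {e : J} {ε : J →ₗ[F] F} (hε : ε e = 1)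
    (hεe : ∀ a ∈ jpow F J 7, a = ε a • e) {x : Fin 3 → J} {S : List (Fin 3) → J}
    (hS : SSys F x S) (κ : F) (ℓ : Fin 3 → F)
    (h6 : ∀ i, ∀ w : List (Fin 3), w.length = 6 →
      x i * S w = (κ * ((i :: w).map ℓ).prod) • e) :
    ∀ w : List (Fin 3), w.length = 7 → S w = (κ * (w.map ℓ).prod) • e := by
  have hmem : ∀ w : List (Fin 3), w ≠ [] → S w ∈ jpow F J w.length := by
    intro w hw
    have := hS.mem_filt h2 (filt_jpow (F := F) x) w hw
    rwa [wt_one] at this
  let ν : List (Fin 3) → F := fun w => ε (S w) - κ * (w.map ℓ).prod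
  have h1 : ∀ i, ∀ w : List (Fin 3), w.length = 6 → ν (w ++ [i]) = - ν (i :: w) := by
    intro i w hw
    have hw0 : w ≠ [] := by
      rintro rfl
      simp at hw
    have e1 := hS.mul [i] w (List.cons_ne_nil _ _) hw0
    have e3 : S ([i] ++ w.reverse) = S (w ++ [i]) := by
      rw [← hS.rev (w ++ [i]), List.reverse_append, List.reverse_singleton]
    rw [e3, hS.single, h6 i w hw, List.reverse_singleton, List.singleton_append] at e1
    have e4 := congrArg ε e1
    rw [map_smul, map_smul, hε, map_add, map_add, map_add, smul_eq_mul, smul_eq_mul,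
      mul_one] at e4
    have e5 : ((w ++ [i]).map ℓ).prod = ((i :: w).map ℓ).prod := by
      simp [mul_comm]
    have e6 : 2 * (ν (w ++ [i]) + ν (i :: w)) = 0 := by
      simp only [ν, e5]
      linear_combination -e4
    have := (mul_eq_zero.mp e6).resolve_left h2
    exact eq_neg_of_add_eq_zero_left this
  have h3 : ∀ w : List (Fin 3), w.length = 7 → ν (w.rotate 1) = - ν w := by
    intro w hw
    match w, hw with
    | i :: w, hw =>
      rw [List.rotate_cons_succ, List.rotate_zero]
      exact h1 i w (by simpa using hw)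
  have h4 : ∀ n, ∀ w : List (Fin 3), w.length = 7 → ν (w.rotate n) = (-1) ^ n * ν w := by
    intro n
    induction n with
    | zero => intro w _; simp
    | succ n ih =>
      intro w hw
      rw [← List.rotate_rotate, h3 _ (by rw [List.length_rotate]; exact hw), ih w hw, pow_succ]
      ring
  intro w hw
  have e1 := h4 7 w hw
  have e3 : w.rotate 7 = w := by
    rw [← hw]
    exact List.rotate_length w
  rw [e3] at e1
  have e4 : 2 * ν w = 0 := by
    linear_combination e1
  have e5 := (mul_eq_zero.mp e4).resolve_left h2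
  have e6 : ε (S w) = κ * (w.map ℓ).prod := sub_eq_zero.mp e5
  rw [← e6]
  apply hεe
  have hw0 : w ≠ [] := by
    rintro rfl
    simp at hw
  have := hmem w hw0
  rwa [hw] at this

theorem exists_chr7 [Infinite F] {e : J} (h : Crit F J 7 e) (hn : ngen F J = 3)
    (hd2 : 2 ≤ dlay F J 2) : ∃ χ : ℕ → J →ₗ[F] F, Chr F J 7 χ := by
  have hfin := h.fin
  have h2 := h.two
  have hJ := h.jordan
  have hcount := crit_count h hn (by norm_num)
  have hs1 : ∑ i ∈ Finset.Ico 2 7, dlay F J i =
      ∑ i ∈ Finset.Ico 2 6, dlay F J i + dlay F J 6 := by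
    rw [Finset.sum_Ico_succ_top (by omega)]
  have hs5 : ∑ i ∈ Finset.Ico 2 7, dlay F J i =
      dlay F J 2 + dlay F J 3 + dlay F J 4 + dlay F J 5 + dlay F J 6 := by
    simp [Finset.sum_Ico_eq_sum_range, Finset.sum_range_succ]
  obtain ⟨ε, hε, hεe⟩ := exists_eps h.ne h.top
  -- generators and the S-system
  have hnil : IsNilpotentAlg F J := ⟨7 + 1, by omega, h.bot⟩
  obtain ⟨x, hx⟩ : ∃ x : Fin 3 → J, Gens F J x := by
    obtain ⟨y, hy⟩ := exists_gens hnil
    rw [← hn]
    exact ⟨y, hy⟩
  obtain ⟨S, hS, hfilt, hS8, hspan⟩ := exists_SSys7 h2 hJ h.bot x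
  have hspan := hspan hx.gen
  have hmem : ∀ w : List (Fin 3), w ≠ [] → S w ∈ jpow F J w.length := by
    intro w hw
    have := hfilt (fun _ => 1) (jpow F J) (filt_jpow x) w hw
    rwa [wt_one] at this
  have z8 : ∀ {a : J}, a ∈ jpow F J 8 → a = 0 := by
    intro a ha
    have := h.bot
    rw [show (7 + 1 : ℕ) = 8 from rfl] at this
    rw [this] at ha
    exact (Submodule.mem_bot F).mp ha
  by_cases hA : ∃ v0 : J, ∃ g0 ∈ jpow F J 6, v0 * g0 ≠ 0
  · obtain ⟨v0, g0, hg0, hvg⟩ := hA
    obtain ⟨χ, t, hχ, ht0, ht⟩ := exists_common h2 hJ (r := 1) (m := 6) (c := 7) (by omega)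
      le_rfl (by omega) h.ne h.top h.bot
      (fun K hK => by
        have := hK.dlay_pos
        exact hK.chr h2 hJ (by omega) (by omega) hd2)
      (mem_jpow_one v0) hg0 hvg
    obtain ⟨x0, hx0⟩ := hχ.one
    by_cases hpar : ∀ y, χ 1 y = 0 → t y = 0
    · -- `t = κ χ 1`
      have htl : ∀ y, t y = t x0 * χ 1 y := by
        intro y
        have := hpar (y - χ 1 y • x0)
          (by rw [map_sub, map_smul, hx0, smul_eq_mul, mul_one, sub_self])
        rw [map_sub, map_smul, smul_eq_mul, sub_eq_zero] at this
        rw [this, mul_comm]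
      have hκ : t x0 ≠ 0 := by
        intro h0
        apply ht0
        rw [htl, h0, zero_mul]
      have h7 := sev_rot h2 hε hεe hS (t x0) (fun i => χ 1 (x i)) (by
        intro i w hw
        have hw0 : w ≠ [] := by
          rintro rfl
          simp at hw
        have m1 := hmem w hw0
        rw [hw] at m1
        rw [ht _ (mem_jpow_one _) _ m1, htl (x i), hχ.S_val h2 hS 6 (by norm_num) le_rfl w hw]
        rw [List.map_cons, List.prod_cons]
        congr 1
        ring)
      refine ⟨_, Chr.extend h2 hJ (c := 7) (by norm_num) hε h.bot hχ hκ ?_⟩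
      intro i j hi hj hij a ha b hb
      -- spanning by words
      let f : J → J →ₗ[F] J := fun b =>
        LinearMap.mulRight F b - (χ i).smulRight ((t x0 * χ j b) • e)
      have hf : ∀ b a, f b a = a * b - (t x0 * χ i a * χ j b) • e := by
        intro b a
        change a * b - χ i a • ((t x0 * χ j b) • e) = _
        rw [smul_smul]
        congr 2
        ring
      let g : J → J →ₗ[F] J := fun a =>
        LinearMap.mulLeft F a - (χ j).smulRight ((t x0 * χ i a) • e)
      have hg : ∀ a b, g a b = a * b - (t x0 * χ i a * χ j b) • e := by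
        intro a b
        change a * b - χ j b • ((t x0 * χ i a) • e) = _
        rw [smul_smul]
        congr 2
        ring
      have key : ∀ v w : List (Fin 3), v ≠ [] → w ≠ [] → i ≤ v.length → j ≤ w.length →
          S v * S w = (t x0 * χ i (S v) * χ j (S w)) • e := by
        intro v w hv hw hvi hwj
        have m1 := hmem v hv
        have m2 := hmem w hw
        rcases Nat.lt_or_ge 7 (v.length + w.length) with hl | hl
        · have m3 := mul_mem' (F := F) 8 (by omega) m1 m2
          rw [z8 m3]
          have : χ i (S v) = 0 ∨ χ j (S w) = 0 := by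
            rcases Nat.lt_or_ge i v.length with h' | h'
            · exact Or.inl (hχ.kill i hi (by omega) _ (jpow_anti (by omega) m1))
            · exact Or.inr (hχ.kill j hj (by omega) _ (jpow_anti (by omega) m2))
          rcases this with h' | h'
          · rw [h', mul_zero, zero_mul, zero_smul]
          · rw [h', mul_zero, zero_smul]
        · have hvl : v.length = i := by omega
          have hwl : w.length = j := by omega
          have e1 := hS.mul v w hv hw
          have l7 : v.length + w.length = 7 := by omega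
          rw [h7 (v ++ w) (by simpa using l7), h7 (v ++ w.reverse) (by simpa using l7),
            h7 (v.reverse ++ w) (by simpa using l7),
            h7 (w ++ v) (by rw [List.length_append]; omega)] at e1
          have p1 : ∀ v : List (Fin 3), (v.reverse.map fun i => χ 1 (x i)).prod =
              (v.map fun i => χ 1 (x i)).prod := fun v =>
            ((List.reverse_perm v).map fun i => χ 1 (x i)).prod_eq
          simp only [List.map_append, List.prod_append, p1] at e1
          rw [hχ.S_val h2 hS i hi (by omega) v hvl, hχ.S_val h2 hS j hj (by omega) w hwl]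
          have e3 : (4 : F) • (S v * S w) = (4 : F) • ((t x0 *
              (v.map fun i => χ 1 (x i)).prod * (w.map fun i => χ 1 (x i)).prod) • e) := by
            rw [e1]
            module
          exact smul_right_injective J (L2.four_ne h2) e3
      have s1 : jpow F J i ≤ LinearMap.ker (f b) := by
        refine (L2.jpow_le_S h2 hS hspan i hi).trans ?_
        rw [Submodule.span_le]
        rintro _ ⟨v, ⟨hv, hv0⟩, rfl⟩
        rw [SetLike.mem_coe, LinearMap.mem_ker, hf, ← hg]
        have s2 : jpow F J j ≤ LinearMap.ker (g (S v)) := by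
          refine (L2.jpow_le_S h2 hS hspan j hj).trans ?_
          rw [Submodule.span_le]
          rintro _ ⟨w, ⟨hw, hw0⟩, rfl⟩
          rw [SetLike.mem_coe, LinearMap.mem_ker, hg, sub_eq_zero]
          exact key v w hv0 hw0 hv hw
        exact LinearMap.mem_ker.mp (s2 hb)
      have := s1 ha
      rw [LinearMap.mem_ker, hf, sub_eq_zero] at this
      exact this
    · exfalso
      push Not at hpar
      obtain ⟨y, hy, hty⟩ := hpar
      obtain ⟨x1, hx1, htx1⟩ : ∃ x1, χ 1 x1 = 1 ∧ t x1 = 0 := by
        refine ⟨x0 - (t x0 / t y) • y, ?_, ?_⟩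
        · rw [map_sub, map_smul, hy, smul_zero, sub_zero, hx0]
        · rw [map_sub, map_smul, smul_eq_mul, div_mul_cancel₀ _ hty, sub_self]
      have mm : ∀ {k l : ℕ} (n : ℕ) {u v : J}, n ≤ k + l → u ∈ jpow F J k → v ∈ jpow F J l →
          u * v ∈ jpow F J n := by
        intro k l n u v hn hu hv
        exact mul_mem' n hn hu hv
      have my : y ∈ jpow F J 1 := mem_jpow_one y
      have mx : ∀ i, 1 ≤ i → xp x1 i ∈ jpow F J i := fun i hi => xp_mem x1 hi
      have zx : ∀ g ∈ jpow F J 6, x1 * g = 0 := by
        intro g hg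
        rw [ht x1 (mem_jpow_one x1) g hg, htx1, zero_mul, zero_smul]
      have e6 : xp x1 6 * y = (t y) • e := by
        rw [mul_comm, ht y my _ (mx 6 (by norm_num)), hχ.xp_val x1 (by norm_num) le_rfl, hx1,
          one_pow, mul_one]
      have e7 : xp x1 7 = 0 := by
        rw [xp_succ x1 (by norm_num)]
        exact zx _ (mx 6 (by norm_num))
      have e24 : (x1 * x1) * (xp x1 4 * y) = (t y) • e := by
        have key : ∀ n, xp x1 n = L2.xp x1 n := by
          intro n
          induction n with
          | zero => rfl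
          | succ n ih =>
            rcases Nat.eq_zero_or_pos n with rfl | hn
            · rfl
            · rw [xp_succ x1 hn, L2.xp_succ x1 hn, ih]
        have r := L2.xp_rec F h2 hJ x1 (i := 4) (by norm_num) y
        rw [← key, ← key, ← key] at r
        rw [show 4 + 2 = 6 from rfl, show 4 + 1 = 5 from rfl, e6] at r
        have r1 : xp x1 5 * (x1 * y) = 0 := by
          rw [xp_xcomm h2 hJ]
          exact zx _ (mm 6 (by norm_num) (mx 5 (by norm_num)) my)
        have r3 : x1 * (x1 * (xp x1 4 * y)) = 0 :=
          zx _ (mm 6 (by norm_num) (mem_jpow_one x1) (mm 5 (by norm_num) (mx 4 (by norm_num)) my))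
        have r4 : xp x1 4 * (x1 * (x1 * y)) = 0 := by
          rw [xp_xcomm h2 hJ]
          exact zx _ (mm 6 (by norm_num) (mx 4 (by norm_num))
            (mm 2 (by norm_num) (mem_jpow_one x1) my))
        rw [r1, r3, r4, smul_zero, zero_add, sub_zero, sub_zero] at r
        exact r.symm
      have e42 : xp x1 4 * ((x1 * x1) * y) = (t y) • e := by
        have key : ∀ n, xp x1 n = L2.xp x1 n := by
          intro n
          induction n with
          | zero => rfl
          | succ n ih =>
            rcases Nat.eq_zero_or_pos n with rfl | hn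
            · rfl
            · rw [xp_succ x1 hn, L2.xp_succ x1 hn, ih]
        rw [← e24, key, (L2.xp_comm F h2 hJ x1 4).2]
      have hne : (t y) • e ≠ 0 := smul_ne_zero hty h.ne
      have hχx : χ 1 x1 ≠ 0 := by rw [hx1]; exact one_ne_zero
      have p3 := hχ.dlay_pos (n := 3) (by norm_num) (by norm_num)
      have p4 := hχ.dlay_pos (n := 4) (by norm_num) (by norm_num)
      have p5 := hχ.dlay_pos (n := 5) (by norm_num) (by norm_num)
      have p6 := hχ.dlay_pos (n := 6) (by norm_num) (by norm_num)
      have d5 : dlay F J 5 ≠ 1 := by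
        intro hd
        obtain ⟨r, b', hb', hr⟩ := layer1 hd (xp x1 5) (mx 5 (by norm_num))
          (hχ.notMem hχx (by norm_num) (by norm_num)) (xp x1 4 * y)
          (mm 5 (by norm_num) (mx 4 (by norm_num)) my)
        rw [hr, mul_add, mul_smul_comm, xp_sq_mul hJ x1 (by norm_num), show 5 + 2 = 7 from rfl, e7,
          smul_zero, zero_add] at e24
        apply hne
        rw [← e24]
        exact z8 (mm 8 (by norm_num) (mm 2 (by norm_num) (mem_jpow_one x1) (mem_jpow_one x1)) hb')
      have d3 : dlay F J 3 ≠ 1 := by
        intro hd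
        obtain ⟨r, b', hb', hr⟩ := layer1 hd (xp x1 3) (mx 3 (by norm_num))
          (hχ.notMem hχx (by norm_num) (by norm_num)) ((x1 * x1) * y)
          (mm 3 (by norm_num) (mm 2 (by norm_num) (mem_jpow_one x1) (mem_jpow_one x1)) my)
        rw [hr, mul_add, mul_smul_comm, xp_mul F h2 hJ x1 (by norm_num) (by norm_num),
          show 4 + 3 = 7 from rfl, e7, smul_zero, zero_add] at e42
        apply hne
        rw [← e42]
        exact z8 (mm 8 (by norm_num) (mx 4 (by norm_num)) hb')
      omega
  · exfalso
    push Not at hA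
    have h7 := sev_rot h2 hε hεe hS 0 (fun _ => 0) (by
      intro i w hw
      have hw0 : w ≠ [] := by
        rintro rfl
        simp at hw
      have m1 := hmem w hw0
      rw [hw] at m1
      rw [hA _ _ m1, zero_mul, zero_smul])
    have hle := L2.jpow_le_S h2 hS hspan 7 (by norm_num)
    have hbot : jpow F J 7 ≤ ⊥ := by
      refine hle.trans ?_
      rw [Submodule.span_le]
      rintro _ ⟨w, ⟨hw, hw0⟩, rfl⟩
      rw [SetLike.mem_coe, Submodule.mem_bot]
      have hw' : 7 ≤ w.length := hw
      rcases Nat.lt_or_ge 7 w.length with h' | h'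
      · exact hS8 w h'
      · rw [h7 w (by omega), zero_mul, zero_smul]
    rw [h.top, le_bot_iff, Submodule.span_singleton_eq_bot] at hbot
    exact h.ne hbot

/-- the character of level `c` -/
theorem crit_chr [Infinite F] {c : ℕ} {e : J} (h : Crit F J c e) (hn : ngen F J = 3)
    (hc : 7 ≤ c) (hd2 : 2 ≤ dlay F J 2) : ∃ χ : ℕ → J →ₗ[F] F, Chr F J c χ := by
  have hfin := h.fin
  rcases Nat.eq_or_lt_of_le hc with rfl | hlt
  · exact exists_chr7 h hn hd2
  · exact exists_chr8 h.two h.jordan hlt h.ne h.top h.bot (crit_count h hn (by omega)) hd2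

/-- classes at least 9 are impossible -/
theorem crit_c9 [Infinite F] {c : ℕ} {e : J} (h : Crit F J c e) (hn : ngen F J = 3)
    (hc : 9 ≤ c) (hd2 : 2 ≤ dlay F J 2) : False := by
  have hfin := h.fin
  obtain ⟨χ, hχ⟩ := crit_chr h hn (by omega) hd2
  have h1 := crit_count h hn (by omega)
  have h3 : ∑ i ∈ Finset.Ico 2 c, dlay F J i = dlay F J 2 + ∑ i ∈ Finset.Ico 3 c, dlay F J i := by
    rw [Finset.sum_eq_sum_Ico_succ_bot (by omega)]
  have h4 : ∑ i ∈ Finset.Ico 3 c, 1 ≤ ∑ i ∈ Finset.Ico 3 c, dlay F J i := by
    refine Finset.sum_le_sum fun i hi => ?_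
    rw [Finset.mem_Ico] at hi
    exact hχ.dlay_pos (by omega) (by omega)
  rw [Finset.sum_const, Nat.card_Ico, smul_eq_mul, mul_one] at h4
  omega

end

end JD
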