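import Pool.Agent.H33.JD.Comm
import Pool.Agent.H78.L2.Pw

set_option autoImplicit false
set_option linter.unusedSectionVars false
set_option linter.unusedVariables false

/-!
# JD: class at least 8, three generators: the character of level `c`

`Chr.extend`: from level `c - 1` to level `c`. `exists_chr8`: `c ≥ 8`, `sum_{2 ≤ i < c} d_i ≤ 7`, `d_2 ≥ 2`: there is a character of level `c`.
-/

namespace JD

universe u

open Module

variable {F : Type u} [Field F] {J : Type u} [NonUnitalNonAssocCommRing J] [Module F J]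
  [IsScalarTower F J J] [SMulCommClass F J J]

/-- `J^n` is spanned by the products `(r s) p` -/
theorem jpow_triple {n : ℕ} (hn : 3 ≤ n) (T : Submodule F J)
    (hT : ∀ α β γ : ℕ, 1 ≤ α → 1 ≤ β → 1 ≤ γ → α + β + γ = n → ∀ r ∈ jpow F J α,
      ∀ s ∈ jpow F J β, ∀ p ∈ jpow F J γ, (r * s) * p ∈ T) : jpow F J n ≤ T := by
  have aux : ∀ i j : ℕ, 2 ≤ i → 1 ≤ j → i + j = n → ∀ a ∈ jpow F J i, ∀ b ∈ jpow F J j,
      a * b ∈ T := by
    intro i j hi hj hij a ha b hb
    have h1 : jpow F J i ≤ T.comap ((LinearMap.mul F J).flip b) := by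
      refine jpow_le_of hi _ fun α β hα hβ hαβ r hr s hs => ?_
      rw [Submodule.mem_comap]
      show (r * s) * b ∈ T
      exact hT α β j hα hβ hj (by omega) r hr s hs b hb
    exact h1 ha
  refine jpow_le_of (by omega) T fun i j hi hj hij a ha b hb => ?_
  rcases Nat.lt_or_ge i 2 with h2 | h2
  · rw [mul_comm]
    exact aux j i (by omega) hi (by omega) b hb a ha
  · exact aux i j h2 hj hij a ha b hb

namespace Chr

variable {χ : ℕ → J →ₗ[F] F}

theorem extend_mul (h2 : (2 : F) ≠ 0) (hJ : IsJordan J) {c : ℕ} {e : J}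
    (hχ : Chr F J (c - 1) χ) {κ : F}
    (h1 : ∀ v : J, ∀ g ∈ jpow F J (c - 1), v * g = (κ * χ 1 v * χ (c - 1) g) • e)
    (h3 : ∀ q ∈ jpow F J 2, ∀ g ∈ jpow F J (c - 2), q * g = (κ * χ 2 q * χ (c - 2) g) • e) :
    ∀ i j, 1 ≤ i → 1 ≤ j → i + j = c → ∀ a ∈ jpow F J i, ∀ b ∈ jpow F J j,
      a * b = (κ * χ i a * χ j b) • e := by
  intro i
  induction i using Nat.strong_induction_on with
  | _ i ih =>
    intro j hi hj hij a ha b hb
    rcases Nat.lt_or_ge i 3 with h | h
    · obtain rfl | rfl : i = 1 ∨ i = 2 := by omega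
      · obtain rfl : j = c - 1 := by omega
        exact h1 a b hb
      · obtain rfl : j = c - 2 := by omega
        exact h3 a ha b hb
    · let f : J →ₗ[F] J := LinearMap.mulRight F b - (χ i).smulRight ((κ * χ j b) • e)
      have hf : ∀ a, f a = a * b - (κ * χ i a * χ j b) • e := by
        intro a
        change a * b - χ i a • ((κ * χ j b) • e) = _
        rw [smul_smul]
        congr 2
        ring
      have hle : jpow F J i ≤ LinearMap.ker f := by
        refine jpow_triple h _ fun α β γ hα hβ hγ hs r hr s hs' p hp => ?_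
        rw [LinearMap.mem_ker, hf, sub_eq_zero, gJ4 F h2 hJ r s p b]
        have mm : ∀ {k l n : ℕ} {u v : J}, k + l = n → u ∈ jpow F J k → v ∈ jpow F J l →
            u * v ∈ jpow F J n := fun hn hu hv => hn ▸ mul_mem_jpow hu hv
        have cm : ∀ {k l n : ℕ} {u v : J}, k + l = n → 1 ≤ k → 1 ≤ l → n ≤ c - 1 →
            u ∈ jpow F J k → v ∈ jpow F J l → χ n (u * v) = χ k u * χ l v := by
          intro k l n u v hn hk hl hnc hu hv
          subst hn
          exact hχ.mul k l hk hl hnc u hu v hv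
        have m1 : (r * s) * (p * b) = (κ * (χ α r * χ β s) * (χ γ p * χ j b)) • e := by
          rw [ih (α + β) (by omega) (γ + j) (by omega) (by omega) (by omega) _ (mm rfl hr hs') _
            (mm rfl hp hb), cm rfl hα hβ (by omega) hr hs', cm rfl hγ hj (by omega) hp hb]
        have m2 : (r * p) * (s * b) = (κ * (χ α r * χ γ p) * (χ β s * χ j b)) • e := by
          rw [ih (α + γ) (by omega) (β + j) (by omega) (by omega) (by omega) _ (mm rfl hr hp) _
            (mm rfl hs' hb), cm rfl hα hγ (by omega) hr hp, cm rfl hβ hj (by omega) hs' hb]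
        have m3 : (s * p) * (r * b) = (κ * (χ β s * χ γ p) * (χ α r * χ j b)) • e := by
          rw [ih (β + γ) (by omega) (α + j) (by omega) (by omega) (by omega) _ (mm rfl hs' hp) _
            (mm rfl hr hb), cm rfl hβ hγ (by omega) hs' hp, cm rfl hα hj (by omega) hr hb]
        have m4 : r * (p * (s * b)) = (κ * χ α r * (χ γ p * (χ β s * χ j b))) • e := by
          rw [ih α (by omega) (γ + (β + j)) hα (by omega) (by omega) _ hr _
            (mm rfl hp (mm rfl hs' hb)), cm rfl hγ (by omega) (by omega) hp (mm rfl hs' hb),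
            cm rfl hβ hj (by omega) hs' hb]
        have m5 : s * (p * (r * b)) = (κ * χ β s * (χ γ p * (χ α r * χ j b))) • e := by
          rw [ih β (by omega) (γ + (α + j)) hβ (by omega) (by omega) _ hs' _
            (mm rfl hp (mm rfl hr hb)), cm rfl hγ (by omega) (by omega) hp (mm rfl hr hb),
            cm rfl hα hj (by omega) hr hb]
        rw [m1, m2, m3, m4, m5, cm (k := α + β) (l := γ) (by omega) (by omega) hγ (by omega)
          (mm rfl hr hs') hp, cm rfl hα hβ (by omega) hr hs']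
        module
      have := hle ha
      rw [LinearMap.mem_ker, hf, sub_eq_zero] at this
      exact this

theorem extend (h2 : (2 : F) ≠ 0) (hJ : IsJordan J) {c : ℕ} (hc : 2 ≤ c) {e : J}
    {ε : J →ₗ[F] F} (hε : ε e = 1) (hbot : jpow F J (c + 1) = ⊥)
    (hχ : Chr F J (c - 1) χ) {κ : F} (hκ : κ ≠ 0)
    (h : ∀ i j, 1 ≤ i → 1 ≤ j → i + j = c → ∀ a ∈ jpow F J i, ∀ b ∈ jpow F J j,
      a * b = (κ * χ i a * χ j b) • e) :
    Chr F J c (fun n => if n = c then κ⁻¹ • ε else χ n) := by
  refine ⟨fun i hi hic a ha => ?_, fun i j hi hj hij a ha b hb => ?_, ?_⟩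
  · by_cases h' : i = c
    · subst h'
      rw [hbot, Submodule.mem_bot] at ha
      rw [ha, map_zero]
    · simp only [if_neg h']
      exact hχ.kill i hi (by omega) a ha
  · have hi' : i ≠ c := by omega
    have hj' : j ≠ c := by omega
    simp only [if_neg hi', if_neg hj']
    by_cases h' : i + j = c
    · rw [if_pos h', LinearMap.smul_apply, h i j hi hj h' a ha b hb, map_smul, hε, smul_eq_mul,
        smul_eq_mul, mul_one]
      field_simp
    · rw [if_neg h']
      exact hχ.mul i j hi hj (by omega) a ha b hb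
  · obtain ⟨x, hx⟩ := hχ.one
    refine ⟨x, ?_⟩
    simp only [if_neg (by omega : ¬ 1 = c)]
    exact hx

end Chr

/-- `x^n (x m) = x (x^n m)` -/
theorem xp_xcomm (h2 : (2 : F) ≠ 0) (hJ : IsJordan J) (x m : J) (n : ℕ) :
    xp x n * (x * m) = x * (xp x n * m) := by
  have key : ∀ n, xp x n = L2.xp x n := by
    intro n
    induction n with
    | zero => rfl
    | succ n ih =>
      rcases Nat.eq_zero_or_pos n with rfl | hn
      · rfl
      · rw [xp_succ x hn, L2.xp_succ x hn, ih]
  rw [key]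
  exact (L2.xp_comm F h2 hJ x n).1 m

theorem HY.dlay_pos [Module.Finite F J] {m : ℕ} {K : Submodule F J} (h : HY F J m K) :
    1 ≤ dlay F J m := by
  have h1 := Submodule.finrank_mono h.lo
  have h3 := h.cod
  unfold dlay
  omega

theorem exists_chr8 [Module.Finite F J] [Infinite F] (h2 : (2 : F) ≠ 0) (hJ : IsJordan J)
    {c : ℕ} (hc : 8 ≤ c) {e : J} (he : e ≠ 0) (htop : jpow F J c = Submodule.span F {e})
    (hbot : jpow F J (c + 1) = ⊥) (hs : ∑ i ∈ Finset.Ico 2 c, dlay F J i ≤ 7)
    (hd2 : 2 ≤ dlay F J 2) : ∃ χ : ℕ → J →ₗ[F] F, Chr F J c χ := by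
  obtain ⟨ε, hε, hεe⟩ := exists_eps he htop
  have hs1 : ∑ i ∈ Finset.Ico 2 c, dlay F J i =
      ∑ i ∈ Finset.Ico 2 (c - 1), dlay F J i + dlay F J (c - 1) := by
    obtain ⟨k, rfl⟩ : ∃ k, c = k + 1 := ⟨c - 1, by omega⟩
    rw [Nat.add_sub_cancel, Finset.sum_Ico_succ_top (by omega)]
  have hs2 : ∑ i ∈ Finset.Ico 2 (c - 1), dlay F J i =
      ∑ i ∈ Finset.Ico 2 (c - 2), dlay F J i + dlay F J (c - 2) := by
    obtain ⟨k, rfl⟩ : ∃ k, c = k + 2 := ⟨c - 2, by omega⟩
    rw [show k + 2 - 1 = k + 1 by omega, show k + 2 - 2 = k by omega,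
      Finset.sum_Ico_succ_top (by omega)]
  have hchr1 : ∀ K, HY F J (c - 1) K → ∃ χ : ℕ → J →ₗ[F] F, Chr F J (c - 1) χ ∧
      ∀ g ∈ jpow F J (c - 1), (χ (c - 1) g = 0 ↔ g ∈ K) := by
    intro K hK
    have := hK.dlay_pos
    exact hK.chr h2 hJ (by omega) (by omega) hd2
  have hchr2 : ∀ K, HY F J (c - 2) K → ∃ χ : ℕ → J →ₗ[F] F, Chr F J (c - 2) χ ∧
      ∀ g ∈ jpow F J (c - 2), (χ (c - 2) g = 0 ↔ g ∈ K) := by
    intro K hK
    have := hK.dlay_pos
    exact hK.chr h2 hJ (by omega) (by omega) hd2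
  have smul_inj : ∀ {r s : F}, r • e = s • e → r = s := by
    intro r s h
    have := congrArg ε h
    rwa [map_smul, map_smul, hε, smul_eq_mul, smul_eq_mul, mul_one, mul_one] at this
  by_cases hA : ∃ v0 : J, ∃ g0 ∈ jpow F J (c - 1), v0 * g0 ≠ 0
  · obtain ⟨v0, g0, hg0, hvg⟩ := hA
    obtain ⟨χ, t, hχ, ht0, ht⟩ := exists_common h2 hJ (r := 1) (m := c - 1) (by omega) le_rfl
      (by omega) he htop hbot hchr1 (mem_jpow_one v0) hg0 hvg
    obtain ⟨x, hx⟩ := hχ.one
    -- an element with `t a ≠ 0`, `χ 1 a ≠ 0`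
    obtain ⟨a, hta, hla⟩ : ∃ a, t a ≠ 0 ∧ χ 1 a ≠ 0 := by
      by_cases hv : χ 1 v0 = 0
      · by_cases htx : t x = 0
        · refine ⟨v0 + x, ?_, ?_⟩
          · rw [map_add, htx, add_zero]; exact ht0
          · rw [map_add, hv, hx, zero_add]; exact one_ne_zero
        · exact ⟨x, htx, by rw [hx]; exact one_ne_zero⟩
      · exact ⟨v0, ht0, hv⟩
    have hsq : ∀ a : J, a * a ∈ jpow F J 2 := fun a =>
      mul_mem' 2 (by omega) (mem_jpow_one a) (mem_jpow_one a)
    have hlow : ∀ a : J, (a * a) * xp a (c - 2) = (t a * χ 1 a ^ (c - 1)) • e := by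
      intro a
      rw [xp_sq_mul hJ a (by omega), show c - 2 + 2 = (c - 1) + 1 by omega,
        xp_succ a (by omega), ht a (mem_jpow_one a) _ (xp_mem a (by omega)),
        hχ.xp_val a (by omega) le_rfl]
    have hqg : (a * a) * xp a (c - 2) ≠ 0 := by
      rw [hlow]
      exact smul_ne_zero (mul_ne_zero hta (pow_ne_zero _ hla)) he
    obtain ⟨ψ, τ, hψ, hτ0, hτ⟩ := exists_common h2 hJ (r := 2) (m := c - 2) (by omega)
      (by omega) (by omega) he htop hbot hchr2 (hsq a) (xp_mem a (by omega)) hqg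
    -- the main relation
    have star : ∀ (b h : J), h ∈ jpow F J (c - 3) →
        τ (b * b) * ψ (c - 2) (b * h) = t b * χ 1 b ^ 2 * χ (c - 3) h := by
      intro b h hh
      have m1 : b * h ∈ jpow F J (c - 2) := mul_mem' (c - 2) (by omega) (mem_jpow_one b) hh
      have m2 : (b * b) * h ∈ jpow F J (c - 1) := mul_mem' (c - 1) (by omega) (hsq b) hh
      have e1 := gJ1 hJ b h
      rw [hτ _ (hsq b) _ m1, ht b (mem_jpow_one b) _ m2] at e1
      have e3 := smul_inj e1
      have e4 : χ (c - 1) ((b * b) * h) = χ 2 (b * b) * χ (c - 3) h := by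
        have := hχ.mul 2 (c - 3) (by omega) (by omega) (by omega) _ (hsq b) _ hh
        rwa [show 2 + (c - 3) = c - 1 by omega] at this
      have e5 : χ 2 (b * b) = χ 1 b * χ 1 b :=
        hχ.mul 1 1 le_rfl le_rfl (by omega) _ (mem_jpow_one b) _ (mem_jpow_one b)
      rw [e3, e4, e5]
      ring
    have hψm : ∀ (b h : J), h ∈ jpow F J (c - 3) → ψ (c - 2) (b * h) = ψ 1 b * ψ (c - 3) h := by
      intro b h hh
      have := hψ.mul 1 (c - 3) le_rfl (by omega) (by omega) _ (mem_jpow_one b) _ hh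
      rwa [show 1 + (c - 3) = c - 2 by omega] at this
    have hpar : ∀ y, (τ (a * a) * ψ 1 a ^ (c - 3)) * ψ 1 y = (t a * χ 1 a ^ (c - 2)) * χ 1 y := by
      intro y
      have m1 : y * xp a (c - 4) ∈ jpow F J (c - 3) :=
        mul_mem' (c - 3) (by omega) (mem_jpow_one y) (xp_mem a (by omega))
      have e1 := star a (y * xp a (c - 4)) m1
      rw [hψm _ _ m1] at e1
      have e3 := hψ.mul 1 (c - 4) le_rfl (by omega) (by omega) _ (mem_jpow_one y) _
        (xp_mem a (by omega))
      have e4 := hχ.mul 1 (c - 4) le_rfl (by omega) (by omega) _ (mem_jpow_one y) _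
        (xp_mem a (by omega))
      rw [show 1 + (c - 4) = c - 3 by omega, hψ.xp_val a (by omega) (by omega)] at e3
      rw [show 1 + (c - 4) = c - 3 by omega, hχ.xp_val a (by omega) (by omega)] at e4
      rw [e3, e4] at e1
      have e5 : ψ 1 a ^ (c - 3) = ψ 1 a * ψ 1 a ^ (c - 4) := by
        rw [← pow_succ']
        congr 1
        omega
      have e6 : χ 1 a ^ (c - 2) = χ 1 a ^ 2 * χ 1 a ^ (c - 4) := by
        rw [← pow_add]
        congr 1
        omega
      rw [e5, e6]
      linear_combination e1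
    have hB : t a * χ 1 a ^ (c - 2) ≠ 0 := mul_ne_zero hta (pow_ne_zero _ hla)
    have hA0 : τ (a * a) * ψ 1 a ^ (c - 3) ≠ 0 := by
      intro h0
      have := hpar x
      rw [h0, zero_mul, hx, mul_one] at this
      exact hB this.symm
    obtain ⟨s, hs0, hs⟩ : ∃ s : F, s ≠ 0 ∧ ∀ y, ψ 1 y = s * χ 1 y := by
      refine ⟨(t a * χ 1 a ^ (c - 2)) / (τ (a * a) * ψ 1 a ^ (c - 3)), div_ne_zero hB hA0, ?_⟩
      intro y
      rw [div_mul_eq_mul_div, ← hpar y, mul_div_cancel_left₀ _ hA0]
    -- replace `ψ` by `χ`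
    have hτ' : ∀ q ∈ jpow F J 2, ∀ g ∈ jpow F J (c - 2),
        q * g = ((s ^ (c - 2) * τ q) * χ (c - 2) g) • e := by
      intro q hq g hg
      rw [hτ q hq g hg, (hχ.mono (m' := c - 2) (by omega)).uniq hψ hs (by omega) le_rfl g hg]
      congr 1
      ring
    have star' : ∀ b, χ 1 b ≠ 0 → s ^ (c - 2) * τ (b * b) = t b * χ 1 b := by
      intro b hb
      have m1 : xp x (c - 3) ∈ jpow F J (c - 3) := xp_mem x (by omega)
      have e1 := star b _ m1
      rw [hψm _ _ m1, hψ.xp_val x (by omega) (by omega), hχ.xp_val x (by omega) (by omega), hx,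
        one_pow, mul_one, hs, hs, hx, mul_one] at e1
      have e3 : s ^ (c - 2) = s * s ^ (c - 3) := by
        rw [← pow_succ']
        congr 1
        omega
      have e4 : (s ^ (c - 2) * τ (b * b)) * χ 1 b = (t b * χ 1 b) * χ 1 b := by
        rw [e3]
        linear_combination e1
      exact mul_right_cancel₀ hb e4
    have hker : ∀ y, χ 1 y = 0 → t y = 0 := by
      intro y hy
      have e1 := star' (x + y) (by rw [map_add, hx, hy, add_zero]; exact one_ne_zero)
      have e3 := star' (x - y) (by rw [map_sub, hx, hy, sub_zero]; exact one_ne_zero)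
      have q1 : (x + y) * (x + y) = x * x + y * y + (2 : F) • (x * y) := by
        rw [add_mul, mul_add, mul_add, mul_comm y x, two_smul]
        abel
      have q2 : (x - y) * (x - y) = x * x + y * y - (2 : F) • (x * y) := by
        rw [sub_mul, mul_sub, mul_sub, mul_comm y x, two_smul]
        abel
      rw [q1, map_add, map_add, map_add, map_add, map_smul, hx, hy, smul_eq_mul] at e1
      rw [q2, map_sub, map_add, map_sub, map_sub, map_smul, hx, hy, smul_eq_mul] at e3
      have e4 := xp_xcomm h2 hJ x y (c - 2)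
      have m1 : xp x (c - 2) ∈ jpow F J (c - 2) := xp_mem x (by omega)
      have m2 : x * y ∈ jpow F J 2 := mul_mem' 2 (by omega) (mem_jpow_one x) (mem_jpow_one y)
      have m3 : xp x (c - 2) * y ∈ jpow F J (c - 1) :=
        mul_mem' (c - 1) (by omega) m1 (mem_jpow_one y)
      have e5 : χ (c - 1) (xp x (c - 2) * y) = 0 := by
        have := hχ.mul (c - 2) 1 (by omega) le_rfl (by omega) _ m1 _ (mem_jpow_one y)
        rw [show c - 2 + 1 = c - 1 by omega, hy, mul_zero] at this
        exact this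
      rw [ht x (mem_jpow_one x) _ m3, e5, mul_zero, zero_smul, mul_comm (xp x (c - 2)),
        hτ' _ m2 _ m1, hχ.xp_val x (by omega) (by omega), hx, one_pow, mul_one] at e4
      have e6 : s ^ (c - 2) * τ (x * y) = 0 := (smul_eq_zero.mp e4).resolve_right he
      have e7 : 2 * t y = 0 := by linear_combination 4 * e6 - e1 + e3
      exact (mul_eq_zero.mp e7).resolve_left h2
    have htl : ∀ y, t y = t x * χ 1 y := by
      intro y
      have := hker (y - χ 1 y • x) (by rw [map_sub, map_smul, hx, smul_eq_mul, mul_one, sub_self])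
      rw [map_sub, map_smul, smul_eq_mul, sub_eq_zero] at this
      rw [this, mul_comm]
    have hκ : t x ≠ 0 := by
      intro h0
      apply hta
      rw [htl, h0, zero_mul]
    have hτl : ∀ q ∈ jpow F J 2, s ^ (c - 2) * τ q = t x * χ 2 q := by
      intro q hq
      have hT : jpow F J 2 ≤ LinearMap.ker (s ^ (c - 2) • τ - t x • χ 2) := by
        refine jpow_two_le h2 _ ?_
        refine dense_sq (χ 1) x le_rfl (by rw [xp_one, hx]; exact one_ne_zero) _ fun b hb => ?_
        rw [xp_one] at hb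
        rw [LinearMap.mem_ker, LinearMap.sub_apply, LinearMap.smul_apply, LinearMap.smul_apply,
          smul_eq_mul, smul_eq_mul, star' b hb, htl b]
        have e5 : χ 2 (b * b) = χ 1 b * χ 1 b :=
          hχ.mul 1 1 le_rfl le_rfl (by omega) _ (mem_jpow_one b) _ (mem_jpow_one b)
        rw [e5]
        ring
      have := hT hq
      rw [LinearMap.mem_ker, LinearMap.sub_apply, LinearMap.smul_apply, LinearMap.smul_apply,
        smul_eq_mul, smul_eq_mul, sub_eq_zero] at this
      exact this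
    refine ⟨_, hχ.extend h2 hJ (by omega) hε hbot hκ (hχ.extend_mul h2 hJ ?_ ?_)⟩
    · intro v g hg
      rw [ht v (mem_jpow_one v) g hg, htl v]
    · intro q hq g hg
      rw [hτ' q hq g hg, hτl q hq]
  · exfalso
    push Not at hA
    have hex : ∃ q0 ∈ jpow F J 2, ∃ g0 ∈ jpow F J (c - 2), q0 * g0 ≠ 0 := by
      by_contra hcon
      push Not at hcon
      have : jpow F J c ≤ ⊥ := by
        refine jpow_gen h2 hJ (by omega) ⊥ (fun v g hg => ?_) (fun q hq g hg => ?_)
        · rw [hA v g hg]; exact Submodule.zero_mem _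
        · rw [hcon q hq g hg]; exact Submodule.zero_mem _
      rw [htop, le_bot_iff, Submodule.span_singleton_eq_bot] at this
      exact he this
    obtain ⟨q0, hq0, g0, hg0, hqg⟩ := hex
    obtain ⟨ψ, τ, hψ, hτ0, hτ⟩ := exists_common h2 hJ (r := 2) (m := c - 2) (by omega)
      (by omega) (by omega) he htop hbot hchr2 hq0 hg0 hqg
    obtain ⟨x, hx⟩ := hψ.one
    apply hτ0
    have hT : jpow F J 2 ≤ LinearMap.ker τ := by
      refine jpow_two_le h2 _ ?_
      refine dense_sq (ψ 1) x le_rfl (by rw [xp_one, hx]; exact one_ne_zero) _ fun b hb => ?_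
      rw [xp_one] at hb
      have m1 : xp x (c - 3) ∈ jpow F J (c - 3) := xp_mem x (by omega)
      have m2 : b * xp x (c - 3) ∈ jpow F J (c - 2) :=
        mul_mem' (c - 2) (by omega) (mem_jpow_one b) m1
      have hsq : b * b ∈ jpow F J 2 := mul_mem' 2 (by omega) (mem_jpow_one b) (mem_jpow_one b)
      have m3 : (b * b) * xp x (c - 3) ∈ jpow F J (c - 1) := mul_mem' (c - 1) (by omega) hsq m1
      have e1 := gJ1 hJ b (xp x (c - 3))
      rw [hA b _ m3, hτ _ hsq _ m2] at e1
      have e3 := (smul_eq_zero.mp e1).resolve_right he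
      have e4 := hψ.mul 1 (c - 3) le_rfl (by omega) (by omega) _ (mem_jpow_one b) _ m1
      rw [show 1 + (c - 3) = c - 2 by omega, hψ.xp_val x (by omega) (by omega), hx, one_pow,
        mul_one] at e4
      rw [e4] at e3
      rw [LinearMap.mem_ker]
      exact (mul_eq_zero.mp e3).resolve_right hb
    have := hT hq0
    rwa [LinearMap.mem_ker] at this

end JD
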